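import Pool.Agent.Lib.MP_32323c_lc.Defs
import Mathlib.Tactic.Basic
import Mathlib.Tactic.Tauto
import Mathlib.Order.Basic

/-!
# Basic facts on bisimilarity and on norms of closed terms
-/

namespace Pool.Agent.Lib.MP_32323c_lc

open Tm

variable {A : Type}

@[simp] theorem down_eps : Down (A := A) .eps ↔ True := ⟨fun _ => trivial, fun _ => .eps⟩
@[simp] theorem down_act (a : A) : Down (.act a) ↔ False := ⟨nofun, nofun⟩
@[simp] theorem down_alt (p q : Closed A) : Down (.alt p q) ↔ Down p ∨ Down q :=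
  ⟨fun h => by cases h with
    | altL h => exact Or.inl h
    | altR h => exact Or.inr h, fun h => h.elim .altL .altR⟩
@[simp] theorem down_seq (p q : Closed A) : Down (.seq p q) ↔ Down p ∧ Down q :=
  ⟨fun h => by cases h with | seq h1 h2 => exact ⟨h1, h2⟩, fun h => .seq h.1 h.2⟩
@[simp] theorem down_star (p q : Closed A) : Down (.star p q) ↔ Down q :=
  ⟨fun h => by cases h with | star h => exact h, .star⟩

theorem step_eps {c : A} {p' : Closed A} : Step .eps c p' ↔ False := ⟨nofun, nofun⟩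
theorem step_act {a c : A} {p' : Closed A} : Step (.act a) c p' ↔ c = a ∧ p' = .eps := by
  constructor
  · intro h; cases h; exact ⟨rfl, rfl⟩
  · rintro ⟨rfl, rfl⟩; exact .act _
theorem step_alt {p q p' : Closed A} {c : A} :
    Step (.alt p q) c p' ↔ Step p c p' ∨ Step q c p' := by
  constructor
  · intro h
    cases h with
    | altL h => exact Or.inl h
    | altR h => exact Or.inr h
  · exact fun h => h.elim .altL .altR
theorem step_seq {p q r : Closed A} {c : A} :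
    Step (.seq p q) c r ↔ (∃ p', Step p c p' ∧ r = .seq p' q) ∨ (Down p ∧ Step q c r) := by
  constructor
  · intro h
    cases h with
    | seqL h => exact Or.inl ⟨_, h, rfl⟩
    | seqR h1 h2 => exact Or.inr ⟨h1, h2⟩
  · rintro (⟨p', h, rfl⟩ | ⟨h1, h2⟩)
    · exact .seqL h
    · exact .seqR h1 h2
theorem step_star {p q r : Closed A} {c : A} :
    Step (.star p q) c r ↔ (∃ p', Step p c p' ∧ r = .seq p' (.star p q)) ∨ Step q c r := by
  constructor
  · intro h
    cases h with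
    | starL h => exact Or.inl ⟨_, h, rfl⟩
    | starR h => exact Or.inr h
  · rintro (⟨p', h, rfl⟩ | h)
    · exact .starL h
    · exact .starR h

/-! ### Bisimilarity -/

theorem Bisim.refl (p : Closed A) : Bisim p p :=
  ⟨Eq, ⟨fun _ _ h => h.symm, fun _ _ h _ p' hp => ⟨p', h ▸ hp, rfl⟩, fun _ _ h hp => h ▸ hp⟩, rfl⟩

theorem Bisim.symm {p q : Closed A} (h : Bisim p q) : Bisim q p := by
  obtain ⟨R, hR, h⟩ := h
  exact ⟨R, hR, hR.symm _ _ h⟩

theorem Bisim.move {p q : Closed A} (h : Bisim p q) {c : A} {p' : Closed A} (hp : Step p c p') :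
    ∃ q', Step q c q' ∧ Bisim p' q' := by
  obtain ⟨R, hR, h⟩ := h
  obtain ⟨q', hq, h'⟩ := hR.move _ _ h _ _ hp
  exact ⟨q', hq, R, hR, h'⟩

theorem Bisim.down {p q : Closed A} (h : Bisim p q) (hp : Down p) : Down q := by
  obtain ⟨R, hR, h⟩ := h
  exact hR.down _ _ h hp

theorem Bisim.down_iff {p q : Closed A} (h : Bisim p q) : Down p ↔ Down q :=
  ⟨h.down, h.symm.down⟩

theorem Bisim.trans {p q r : Closed A} (h1 : Bisim p q) (h2 : Bisim q r) : Bisim p r := by
  refine ⟨fun p r => ∃ q, Bisim p q ∧ Bisim q r, ⟨?_, ?_, ?_⟩, q, h1, h2⟩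
  · rintro p r ⟨q, h1, h2⟩
    exact ⟨q, h2.symm, h1.symm⟩
  · rintro p r ⟨q, h1, h2⟩ c p' hp
    obtain ⟨q', hq, h1'⟩ := h1.move hp
    obtain ⟨r', hr, h2'⟩ := h2.move hq
    exact ⟨r', hr, q', h1', h2'⟩
  · rintro p r ⟨q, h1, h2⟩ hp
    exact h2.down (h1.down hp)

/-- To prove bisimilarity it suffices to give a (not necessarily symmetric) relation whose pairs
match moves up to bisimilarity, in both directions. -/
theorem bisim_of_rel (R : Closed A → Closed A → Prop)
    (hdown : ∀ p q, R p q → (Down p ↔ Down q))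
    (hfwd : ∀ p q, R p q → ∀ c p', Step p c p' → ∃ q', Step q c q' ∧
      ∃ u v, Bisim p' u ∧ R u v ∧ Bisim v q')
    (hbwd : ∀ p q, R p q → ∀ c q', Step q c q' → ∃ p', Step p c p' ∧
      ∃ u v, Bisim p' u ∧ R u v ∧ Bisim v q')
    {p q : Closed A} (h : R p q) : Bisim p q := by
  let S : Closed A → Closed A → Prop := fun p q =>
    (∃ u v, Bisim p u ∧ R u v ∧ Bisim v q) ∨ (∃ u v, Bisim q u ∧ R u v ∧ Bisim v p)
  refine ⟨S, ⟨?_, ?_, ?_⟩, Or.inl ⟨p, q, Bisim.refl p, h, Bisim.refl q⟩⟩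
  · rintro p q (h | h)
    · exact Or.inr h
    · exact Or.inl h
  · rintro p q (⟨u, v, h1, h2, h3⟩ | ⟨u, v, h1, h2, h3⟩) c p' hp
    · obtain ⟨u', hu, h1'⟩ := h1.move hp
      obtain ⟨v', hv, x, y, hx, hxy, hy⟩ := hfwd _ _ h2 _ _ hu
      obtain ⟨q', hq, h3'⟩ := h3.move hv
      exact ⟨q', hq, Or.inl ⟨x, y, h1'.trans hx, hxy, hy.trans h3'⟩⟩
    · obtain ⟨v', hv, h3'⟩ := h3.symm.move hp
      obtain ⟨u', hu, x, y, hx, hxy, hy⟩ := hbwd _ _ h2 _ _ hv
      obtain ⟨q', hq, h1'⟩ := h1.symm.move hu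
      exact ⟨q', hq, Or.inr ⟨x, y, h1'.symm.trans hx, hxy, hy.trans h3'.symm⟩⟩
  · rintro p q (⟨u, v, h1, h2, h3⟩ | ⟨u, v, h1, h2, h3⟩) hp
    · exact h3.down ((hdown _ _ h2).mp (h1.down hp))
    · exact h1.symm.down ((hdown _ _ h2).mpr (h3.symm.down hp))

theorem Bisim.seq_congr {p p' q q' : Closed A} (hp : Bisim p p') (hq : Bisim q q') :
    Bisim (.seq p q) (.seq p' q') := by
  refine bisim_of_rel (fun u v => (∃ p p' q q', Bisim p p' ∧ Bisim q q' ∧
    u = .seq p q ∧ v = .seq p' q') ∨ Bisim u v) ?_ ?_ ?_ (Or.inl ⟨p, p', q, q', hp, hq, rfl, rfl⟩)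
  · rintro u v (⟨p, p', q, q', hp, hq, rfl, rfl⟩ | h)
    · rw [down_seq, down_seq, hp.down_iff, hq.down_iff]
    · exact h.down_iff
  · rintro u v (⟨p, p', q, q', hp, hq, rfl, rfl⟩ | h) c r hr
    · rcases step_seq.mp hr with ⟨p1, h1, rfl⟩ | ⟨h1, h2⟩
      · obtain ⟨p1', h1', h⟩ := hp.move h1
        exact ⟨_, .seqL h1', _, _, .refl _, Or.inl ⟨_, _, _, _, h, hq, rfl, rfl⟩, .refl _⟩
      · obtain ⟨q1', h1', h⟩ := hq.move h2
        exact ⟨_, .seqR (hp.down h1) h1', _, _, .refl _, Or.inr h, .refl _⟩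
    · obtain ⟨r', hr', h'⟩ := h.move hr
      exact ⟨r', hr', _, _, .refl _, Or.inr h', .refl _⟩
  · rintro u v (⟨p, p', q, q', hp, hq, rfl, rfl⟩ | h) c r hr
    · rcases step_seq.mp hr with ⟨p1, h1, rfl⟩ | ⟨h1, h2⟩
      · obtain ⟨p1', h1', h⟩ := hp.symm.move h1
        exact ⟨_, .seqL h1', _, _, .refl _, Or.inl ⟨_, _, _, _, h.symm, hq, rfl, rfl⟩, .refl _⟩
      · obtain ⟨q1', h1', h⟩ := hq.symm.move h2
        exact ⟨_, .seqR (hp.symm.down h1) h1', _, _, .refl _, Or.inr h.symm, .refl _⟩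
    · obtain ⟨r', hr', h'⟩ := h.symm.move hr
      exact ⟨r', hr', _, _, .refl _, Or.inr h'.symm, .refl _⟩

/-- Two closed terms whose moves match up to bisimilarity are bisimilar. -/
theorem bisim_of_moves {p q : Closed A} (hd : Down p ↔ Down q)
    (h1 : ∀ c p', Step p c p' → ∃ q', Step q c q' ∧ Bisim p' q')
    (h2 : ∀ c q', Step q c q' → ∃ p', Step p c p' ∧ Bisim p' q') : Bisim p q := by
  refine bisim_of_rel (fun u v => (u = p ∧ v = q) ∨ Bisim u v) ?_ ?_ ?_ (Or.inl ⟨rfl, rfl⟩)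
  · rintro u v (⟨rfl, rfl⟩ | h)
    · exact hd
    · exact h.down_iff
  · rintro u v (⟨rfl, rfl⟩ | h) c r hr
    · obtain ⟨q', hq, h⟩ := h1 _ _ hr
      exact ⟨q', hq, _, _, .refl _, Or.inr h, .refl _⟩
    · obtain ⟨q', hq, h⟩ := h.move hr
      exact ⟨q', hq, _, _, .refl _, Or.inr h, .refl _⟩
  · rintro u v (⟨rfl, rfl⟩ | h) c r hr
    · obtain ⟨q', hq, h⟩ := h2 _ _ hr
      exact ⟨q', hq, _, _, .refl _, Or.inr h, .refl _⟩
    · obtain ⟨q', hq, h⟩ := h.symm.move hr
      exact ⟨q', hq, _, _, .refl _, Or.inr h.symm, .refl _⟩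

theorem bisim_eps_seq (p : Closed A) : Bisim (.seq .eps p) p := by
  refine bisim_of_moves (by simp) ?_ ?_
  · intro c r hr
    rcases step_seq.mp hr with ⟨p1, h1, rfl⟩ | ⟨-, h2⟩
    · exact (step_eps.mp h1).elim
    · exact ⟨r, h2, .refl _⟩
  · intro c r hr
    exact ⟨r, .seqR .eps hr, .refl _⟩

theorem bisim_seq_eps (p : Closed A) : Bisim (.seq p .eps) p := by
  refine bisim_of_rel (fun u v => u = .seq v .eps) ?_ ?_ ?_ rfl
  · rintro u v rfl; simp
  · rintro u v rfl c r hr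
    rcases step_seq.mp hr with ⟨p1, h1, rfl⟩ | ⟨-, h2⟩
    · exact ⟨_, h1, _, _, .refl _, rfl, .refl _⟩
    · exact (step_eps.mp h2).elim
  · rintro u v rfl c r hr
    exact ⟨_, .seqL hr, _, _, .refl _, rfl, .refl _⟩

theorem bisim_seq_assoc (p q r : Closed A) :
    Bisim (.seq (.seq p q) r) (.seq p (.seq q r)) := by
  refine bisim_of_rel (fun u v => (∃ p, u = .seq (.seq p q) r ∧ v = .seq p (.seq q r)) ∨ u = v)
    ?_ ?_ ?_ (Or.inl ⟨p, rfl, rfl⟩)
  · rintro u v (⟨p, rfl, rfl⟩ | rfl)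
    · simp [and_assoc]
    · rfl
  · rintro u v (⟨p, rfl, rfl⟩ | rfl) c x hx
    · rcases step_seq.mp hx with ⟨y, h1, rfl⟩ | ⟨h0, h2⟩
      · rcases step_seq.mp h1 with ⟨z, h5, rfl⟩ | ⟨h3, h4⟩
        · exact ⟨_, .seqL h5, _, _, .refl _, Or.inl ⟨_, rfl, rfl⟩, .refl _⟩
        · exact ⟨_, .seqR h3 (.seqL h4), _, _, .refl _, Or.inr rfl, .refl _⟩
      · rw [down_seq] at h0
        exact ⟨_, .seqR h0.1 (.seqR h0.2 h2), _, _, .refl _, Or.inr rfl, .refl _⟩
    · exact ⟨_, hx, _, _, .refl _, Or.inr rfl, .refl _⟩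
  · rintro u v (⟨p, rfl, rfl⟩ | rfl) c x hx
    · rcases step_seq.mp hx with ⟨y, h1, rfl⟩ | ⟨h0, h2⟩
      · exact ⟨_, .seqL (.seqL h1), _, _, .refl _, Or.inl ⟨_, rfl, rfl⟩, .refl _⟩
      · rcases step_seq.mp h2 with ⟨z, h5, rfl⟩ | ⟨h3, h4⟩
        · exact ⟨_, .seqL (.seqR h0 h5), _, _, .refl _, Or.inr rfl, .refl _⟩
        · exact ⟨_, .seqR (.seq h0 h3) h4, _, _, .refl _, Or.inr rfl, .refl _⟩
    · exact ⟨_, hx, _, _, .refl _, Or.inr rfl, .refl _⟩

/-! ### Norms -/

/-- The norm of a closed term: the least number of moves to termination. -/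
def norm : Closed A → ℕ
  | .eps => 0
  | .act _ => 1
  | .var x => x.elim
  | .alt p q => min (norm p) (norm q)
  | .seq p q => norm p + norm q
  | .star _ q => norm q

theorem norm_eq_zero_iff (p : Closed A) : norm p = 0 ↔ Down p := by
  induction p with
  | eps => simp [norm]
  | act a => simp [norm]
  | var x => exact x.elim
  | alt p q ihp ihq => simp only [norm, down_alt, ← ihp, ← ihq]; omega
  | seq p q ihp ihq => simp only [norm, down_seq, ← ihp, ← ihq]; omega
  | star p q ihp ihq => simp only [norm, down_star, ← ihq]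

theorem norm_le_of_step {p p' : Closed A} {c : A} (h : Step p c p') : norm p ≤ norm p' + 1 := by
  induction h with
  | act a => simp [norm]
  | altL _ ih => simp only [norm]; omega
  | altR _ ih => simp only [norm]; omega
  | seqL _ ih => simp only [norm]; omega
  | seqR hd _ ih => simp only [norm, (norm_eq_zero_iff _).mpr hd]; omega
  | starL _ ih => simp only [norm]; omega
  | starR _ ih => simp only [norm]; omega

theorem exists_step_norm (p : Closed A) {n : ℕ} (h : norm p = n + 1) :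
    ∃ c p', Step p c p' ∧ norm p' = n := by
  induction p generalizing n with
  | eps => simp [norm] at h
  | act a => exact ⟨a, .eps, .act a, by simp only [norm] at h ⊢; omega⟩
  | var x => exact x.elim
  | alt p q ihp ihq =>
    simp only [norm] at h
    by_cases hp : norm p = n + 1
    · obtain ⟨c, p', h1, h2⟩ := ihp hp
      exact ⟨c, p', .altL h1, h2⟩
    · obtain ⟨c, p', h1, h2⟩ := ihq (n := n) (by omega)
      exact ⟨c, p', .altR h1, h2⟩
  | seq p q ihp ihq =>
    simp only [norm] at h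
    rcases Nat.eq_zero_or_pos (norm p) with h0 | h0
    · obtain ⟨c, q', h1, h2⟩ := ihq (n := n) (by omega)
      exact ⟨c, q', .seqR ((norm_eq_zero_iff _).mp h0) h1, h2⟩
    · obtain ⟨c, p', h1, h2⟩ := ihp (n := norm p - 1) (by omega)
      exact ⟨c, .seq p' q, .seqL h1, by simp only [norm]; omega⟩
  | star p q ihp ihq =>
    obtain ⟨c, q', h1, h2⟩ := ihq (n := n) h
    exact ⟨c, q', .starR h1, h2⟩

theorem Bisim.norm_le {p q : Closed A} (h : Bisim p q) : norm q ≤ norm p := by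
  have key : ∀ n, ∀ p q : Closed A, Bisim p q → norm p = n → norm q ≤ n := by
    intro n
    induction n with
    | zero =>
      intro p q h hp
      have := h.down ((norm_eq_zero_iff _).mp hp)
      rw [(norm_eq_zero_iff _).mpr this]
    | succ n ih =>
      intro p q h hp
      obtain ⟨c, p', h1, h2⟩ := exists_step_norm p hp
      obtain ⟨q', h3, h4⟩ := h.move h1
      have := ih _ _ h4 h2
      have := norm_le_of_step h3
      omega
  exact key _ _ _ h rfl

theorem Bisim.norm_eq {p q : Closed A} (h : Bisim p q) : norm p = norm q :=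
  le_antisymm h.symm.norm_le h.norm_le

end Pool.Agent.Lib.MP_32323c_lc
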