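import Pool.Agent.Lib.MP_32323c_lc.Uniq

/-!
# Conflicting labels for one closed term with two continuations
-/

namespace Pool.Agent.Lib.MP_32323c_lc

open Tm

variable {A : Type} {a : A} {K : ℕ}

theorem eq_X_of_mem {g y : Lab} {c : A} (h : (c, y) ∈ (info a K g).τ) (hg : labNorm g = 1)
    (hl : 1 ≤ lv g ∨ ∃ m, g = .Q m) (hy : labNorm y = 0) : y = .X := by
  cases g with
  | X => simp [labNorm] at hg
  | Y => simp [labNorm] at hg
  | P m =>
    cases m with
    | zero =>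
      rcases hl with hl | ⟨m, hm⟩
      · simp [lv] at hl
      · simp at hm
    | succ m =>
      simp only [info, Set.mem_insert_iff, Set.mem_singleton_iff, Prod.mk.injEq] at h
      rcases h with ⟨_, rfl⟩ | ⟨_, rfl⟩
      · rfl
      · simp [labNorm] at hy
  | Q m =>
    cases m with
    | zero =>
      simp only [info, Set.mem_singleton_iff, Prod.mk.injEq] at h
      exact h.2
    | succ m =>
      simp only [info, Set.mem_insert_iff, Set.mem_singleton_iff, Prod.mk.injEq] at h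
      rcases h with ⟨_, rfl⟩ | ⟨_, rfl⟩
      · rfl
      · simp [labNorm] at hy

theorem info_eq_of_subset_singleton {ι₁ ι₂ : Info A} (h : IPiEq ι₁ ι₂) (x : A × Lab)
    (h1 : ∀ y ∈ ι₁.τ, y = x) (h2 : ∀ y ∈ ι₂.τ, y = x) : ι₁ = ι₂ := by
  ext y
  · exact h.1
  · constructor
    · intro hy
      obtain rfl := h1 y hy
      obtain ⟨g', hg', _⟩ := h.2.1 y.1 y.2 hy
      have := h2 _ hg'
      rwa [this] at hg'
    · intro hy
      obtain rfl := h2 y hy
      obtain ⟨g', hg', _⟩ := h.2.2 y.1 y.2 hy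
      have := h1 _ hg'
      rwa [this] at hg'

theorem triv_of_mid_aux {ζ : Closed A} {ι₁ ι₂ : Info A} {τ₁ τ₂ : Set (A × Lab)} {g₁ g₂ : Lab}
    (h1 : Sem a K ζ ι₁ τ₁) (e1 : comb (Down ζ) τ₁ ι₁ = info a K g₁)
    (h2 : Sem a K ζ ι₂ τ₂) (e2 : comb (Down ζ) τ₂ ι₂ = info a K g₂)
    (hι : IPiEq ι₁ ι₂) (hg : labNorm g₁ = 1) (hg' : labNorm g₂ = 1)
    (hne : g₁ ≠ g₂) (hQ : ∃ m, g₂ = .Q m) : Triv ζ := by
  by_contra ht
  unfold Triv at ht
  push Not at ht
  obtain ⟨c, ζ', hs⟩ := ht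
  have n1 := h1.norm_add e1
  have n2 := h2.norm_add e2
  have hι' : ι₁ = ι₂ := by
    rcases Nat.eq_zero_or_pos (norm ζ) with h0 | h0
    · -- `ζ` terminates
      have hd : Down ζ := (norm_eq_zero_iff _).mp h0
      have side : ∀ {ι : Info A} {τ : Set (A × Lab)} {g : Lab}, Sem a K ζ ι τ →
          comb (Down ζ) τ ι = info a K g → labNorm g = 1 → ∀ y ∈ ι.τ, y = (a, Lab.X) := by
        intro ι τ g h e hg y hy
        have n := h.norm_add e
        obtain ⟨τ', x, h3, h4, h5⟩ := h.fwd hs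
        have n' := h3.norm_add h4
        have hx := labNorm_le x
        have hd' : Down ζ' := (norm_eq_zero_iff _).mp (by omega)
        have hx1 : labNorm x = 1 := by omega
        have m1 : (c, x) ∈ (info a K g).τ := by rw [← e]; exact Or.inl h5
        have l1 := lv_of_succ m1 hg hx1
        have m2 : y ∈ (info a K g).τ := by rw [← e]; exact Or.inr ⟨hy, hd⟩
        have m3 : y ∈ (info a K x).τ := by rw [← h4]; exact Or.inr ⟨hy, hd'⟩
        have hyle := labNorm_le y.2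
        have hy0 : labNorm y.2 = 0 := by
          by_contra hcon
          have l2 := lv_of_succ (c := y.1) m2 hg (by omega)
          have l3 := lv_of_succ (c := y.1) m3 hx1 (by omega)
          omega
        have := eq_X_of_mem (c := y.1) m2 hg (Or.inl (by omega)) hy0
        have ha := info_fst m2
        rw [← this, ← ha]
      exact info_eq_of_subset_singleton hι _ (side h1 e1 hg) (side h2 e2 hg')
    · -- `ζ` has norm one
      have hnd : ¬ Down ζ := by rw [← norm_eq_zero_iff]; omega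
      have hX : (a, Lab.X) ∈ (comb (Down ζ) τ₁ ι₁).τ := by
        rw [e1]; exact info_X_mem a K g₁ hg
      rcases mem_comb_τ.mp hX with hX | ⟨_, hd⟩
      · obtain ⟨ζb, τb, h3, h4, h5⟩ := h1.bwd hX
        have n3 := h4.norm_add h5
        obtain ⟨τb', y, h6, h7, h8⟩ := h2.fwd h3
        have n4 := h6.norm_add h7
        simp only [labNorm] at n3
        have hdb : Down ζb := (norm_eq_zero_iff _).mp (by omega)
        have m1 : (a, y) ∈ (info a K g₂).τ := by rw [← e2]; exact Or.inl h8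
        have hy := eq_X_of_mem m1 hg' (Or.inr hQ) (by omega)
        subst hy
        refine info_eq_of_subset_singleton hι (a, Lab.P K) ?_ ?_
        · intro z hz
          have : z ∈ (comb (Down ζb) τb ι₁).τ := Or.inr ⟨hz, hdb⟩
          rw [h5] at this
          exact this
        · intro z hz
          have : z ∈ (comb (Down ζb) τb' ι₂).τ := Or.inr ⟨hz, hdb⟩
          rw [h7] at this
          exact this
      · exact absurd hd hnd
  subst hι'
  obtain rfl := h1.unique h2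
  exact hne (info_injective a K (e1.symm.trans e2))

theorem pi_eq_of_comb {ζ : Closed A} {ι₁ ι₂ : Info A} {τ₁ τ₂ : Set (A × Lab)} {g₁ g₂ : Lab}
    (h1 : Sem a K ζ ι₁ τ₁) (e1 : comb (Down ζ) τ₁ ι₁ = info a K g₁)
    (h2 : Sem a K ζ ι₂ τ₂) (e2 : comb (Down ζ) τ₂ ι₂ = info a K g₂)
    (hι : IPiEq ι₁ ι₂) : pi g₁ = pi g₂ := by
  apply pi_eq_of_info (a := a) (K := K)
  rw [← e1, ← e2]
  exact IPiEq.comb (h1.piEq h2 hι) hι

/-- Mid-level conflicts occur only for trivial terms. -/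
theorem triv_of_mid {ζ : Closed A} {ι₁ ι₂ : Info A} {τ₁ τ₂ : Set (A × Lab)} {g₁ g₂ : Lab}
    (h1 : Sem a K ζ ι₁ τ₁) (e1 : comb (Down ζ) τ₁ ι₁ = info a K g₁)
    (h2 : Sem a K ζ ι₂ τ₂) (e2 : comb (Down ζ) τ₂ ι₂ = info a K g₂)
    (hι : IPiEq ι₁ ι₂) (hg : labNorm g₁ = 1) (hne : g₁ ≠ g₂) : Triv ζ := by
  have hpi := pi_eq_of_comb h1 e1 h2 e2 hι
  obtain ⟨hn, hl⟩ := pi_eq_iff.mp hpi
  by_cases hQ : ∃ m, g₂ = .Q m
  · exact triv_of_mid_aux h1 e1 h2 e2 hι hg (by omega) hne hQ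
  · have hQ' : ∃ m, g₁ = .Q m := by
      cases g₁ <;> cases g₂ <;> simp_all [labNorm, lv, pi]
    exact triv_of_mid_aux h2 e2 h1 e1 hι.symm (by omega) hg hne.symm hQ'

/-- Round-level conflicts come from the continuation. -/
theorem rnd_conflict {ζ : Closed A} {ι₁ ι₂ : Info A} {τ₁ τ₂ : Set (A × Lab)}
    (h1 : Sem a K ζ ι₁ τ₁) (e1 : comb (Down ζ) τ₁ ι₁ = info a K .X)
    (h2 : Sem a K ζ ι₂ τ₂) (e2 : comb (Down ζ) τ₂ ι₂ = info a K .Y)
    (hι : IPiEq ι₁ ι₂) : (a, Lab.Q K) ∈ ι₂.τ ∧ (a, Lab.Q K) ∉ ι₁.τ := by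
  have n1 := h1.norm_add e1
  simp only [labNorm] at n1
  have hd : Down ζ := (norm_eq_zero_iff _).mp (by omega)
  refine ⟨?_, ?_⟩
  · have hQ : (a, Lab.Q K) ∈ (comb (Down ζ) τ₂ ι₂).τ := by rw [e2]; simp [info]
    rcases mem_comb_τ.mp hQ with hQ | ⟨hQ, _⟩
    · exfalso
      obtain ⟨ζ', τ', h3, h4, h5⟩ := h2.bwd hQ
      obtain ⟨τ'', x, h6, h7, h8⟩ := h1.fwd h3
      have m1 : (a, x) ∈ (info a K .X).τ := by rw [← e1]; exact Or.inl h8
      simp only [info, Set.mem_singleton_iff, Prod.mk.injEq, true_and] at m1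
      subst m1
      have ht := triv_of_mid h6 h7 h4 h5 hι rfl (by simp)
      have n2 := h6.norm_add h7
      have n3 := ht.norm_eq
      simp only [labNorm] at n2
      omega
    · exact hQ
  · intro hQ
    have : (a, Lab.Q K) ∈ (comb (Down ζ) τ₁ ι₁).τ := Or.inr ⟨hQ, hd⟩
    rw [e1] at this
    simp [info] at this

end Pool.Agent.Lib.MP_32323c_lc
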