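import Pool.Agent.Lib.MP_32323c_lc.Main
import Mathlib.Data.Finset.Card
import Mathlib.Data.Finset.Union
import Mathlib.Data.Finset.Image
import Mathlib.Tactic.Linarith

/-!
# Sound equations are open bisimilarities
-/

namespace Pool.Agent.Lib.MP_32323c_lc

open Tm

variable {A : Type} {a : A}

/-- The closed term `aⁿ`. -/
def pw (a : A) : ℕ → Closed A
  | 0 => .eps
  | n + 1 => .seq (.act a) (pw a n)

/-- The closed term `a^{n+1} + … + a`. -/
def wide (a : A) : ℕ → Closed A
  | 0 => pw a 1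
  | n + 1 => .alt (pw a (n + 2)) (wide a n)

/-- The coding terms. -/
def beta (a : A) (R x : ℕ) : Closed A := .alt (pw a (R + 3 + x)) (wide a R)

theorem norm_pw (n : ℕ) : norm (pw a n) = n := by
  induction n with
  | zero => rfl
  | succ n ih => simp only [pw, norm, ih]; omega

theorem norm_wide (n : ℕ) : norm (wide a n) = 1 := by
  induction n with
  | zero => exact norm_pw 1
  | succ n ih => simp only [wide, norm, ih, norm_pw]; omega

theorem norm_beta (R x : ℕ) : norm (beta a R x) = 1 := by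
  simp only [beta, norm, norm_wide, norm_pw]; omega

theorem step_pw {n : ℕ} {c : A} {p' : Closed A} :
    Step (pw a (n + 1)) c p' ↔ c = a ∧ p' = .seq .eps (pw a n) := by
  simp only [pw, step_seq, step_act, down_act, false_and, or_false]
  constructor
  · rintro ⟨_, ⟨rfl, rfl⟩, rfl⟩; exact ⟨rfl, rfl⟩
  · rintro ⟨rfl, rfl⟩; exact ⟨_, ⟨rfl, rfl⟩, rfl⟩

theorem step_wide {n : ℕ} {c : A} {p' : Closed A} :
    Step (wide a n) c p' ↔ c = a ∧ ∃ i ≤ n, p' = .seq .eps (pw a i) := by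
  induction n with
  | zero =>
    simp only [wide]
    rw [step_pw]
    constructor
    · rintro ⟨rfl, rfl⟩; exact ⟨rfl, 0, le_refl _, rfl⟩
    · rintro ⟨rfl, i, hi, rfl⟩
      obtain rfl : i = 0 := by omega
      exact ⟨rfl, rfl⟩
  | succ n ih =>
    simp only [wide, step_alt, ih]
    rw [step_pw]
    constructor
    · rintro (⟨rfl, rfl⟩ | ⟨rfl, i, hi, rfl⟩)
      · exact ⟨rfl, n + 1, le_refl _, rfl⟩
      · exact ⟨rfl, i, by omega, rfl⟩
    · rintro ⟨rfl, i, hi, rfl⟩
      by_cases h : i = n + 1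
      · subst h; exact Or.inl ⟨rfl, rfl⟩
      · exact Or.inr ⟨rfl, i, by omega, rfl⟩

theorem step_beta {R x : ℕ} {c : A} {p' : Closed A} :
    Step (beta a R x) c p' ↔ c = a ∧ ∃ i, (i ≤ R ∨ i = R + 2 + x) ∧ p' = .seq .eps (pw a i) := by
  have e : R + 3 + x = (R + 2 + x) + 1 := by omega
  simp only [beta, step_alt, step_wide]
  rw [e, step_pw]
  constructor
  · rintro (⟨rfl, rfl⟩ | ⟨rfl, i, hi, rfl⟩)
    · exact ⟨rfl, _, Or.inr rfl, rfl⟩
    · exact ⟨rfl, i, Or.inl hi, rfl⟩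
  · rintro ⟨rfl, i, hi | rfl, rfl⟩
    · exact Or.inr ⟨rfl, i, hi, rfl⟩
    · exact Or.inl ⟨rfl, rfl⟩

theorem not_down_beta (R x : ℕ) : ¬ Down (beta a R x) := by
  rw [← norm_eq_zero_iff, norm_beta]; omega

theorem step_beta_seq {R x : ℕ} {c : A} {ζ p' : Closed A} :
    Step (.seq (beta a R x) ζ) c p' ↔ c = a ∧ ∃ i, (i ≤ R ∨ i = R + 2 + x) ∧
      p' = .seq (.seq .eps (pw a i)) ζ := by
  rw [step_seq]
  constructor
  · rintro (⟨q, h, rfl⟩ | ⟨h, -⟩)
    · obtain ⟨rfl, i, hi, rfl⟩ := step_beta.mp h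
      exact ⟨rfl, i, hi, rfl⟩
    · exact absurd h (not_down_beta R x)
  · rintro ⟨rfl, i, hi, rfl⟩
    exact Or.inl ⟨_, step_beta.mpr ⟨rfl, i, hi, rfl⟩, rfl⟩

/-- Decoding of a coded continuation. -/
theorem decode_beta {R x y : ℕ} {ζ ξ : Closed A}
    (h : Bisim (.seq (beta a R x) ζ) (.seq (beta a R y) ξ)) : x = y ∧ Bisim ζ ξ := by
  have hn : norm ζ = norm ξ := by
    have := h.norm_eq
    simp only [norm, norm_beta] at this
    omega
  refine ⟨?_, ?_⟩
  · obtain ⟨q, h1, h2⟩ := h.move (step_beta_seq.mpr ⟨rfl, R + 2 + x, Or.inr rfl, rfl⟩)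
    obtain ⟨-, j, hj, rfl⟩ := step_beta_seq.mp h1
    have := h2.norm_eq
    simp only [norm, norm_pw] at this
    omega
  · obtain ⟨q, h1, h2⟩ := h.move (step_beta_seq.mpr ⟨rfl, 0, Or.inl (Nat.zero_le _), rfl⟩)
    obtain ⟨-, j, hj, rfl⟩ := step_beta_seq.mp h1
    have := h2.norm_eq
    simp only [norm, norm_pw] at this
    obtain rfl : j = 0 := by omega
    have e : ∀ ζ : Closed A, Bisim (.seq (.seq .eps (pw a 0)) ζ) ζ := fun ζ =>
      ((bisim_eps_seq (pw a 0)).seq_congr (.refl ζ)).trans (bisim_eps_seq ζ)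
    exact (e ζ).symm.trans (h2.trans (e ξ))

/-- The coding substitution. -/
def code (a : A) (R : ℕ) (x : ℕ) : Closed A := .seq (.act a) (beta a R x)

theorem not_down_code (R x : ℕ) : ¬ Down (code a R x) := by simp [code]

theorem step_code {R x : ℕ} {c : A} {p' : Closed A} :
    Step (code a R x) c p' ↔ c = a ∧ p' = .seq .eps (beta a R x) := by
  simp only [code, step_seq, step_act, down_act, false_and, or_false]
  constructor
  · rintro ⟨_, ⟨rfl, rfl⟩, rfl⟩; exact ⟨rfl, rfl⟩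
  · rintro ⟨rfl, rfl⟩; exact ⟨_, ⟨rfl, rfl⟩, rfl⟩

/-- A coded instance of a term with few derivatives is not a coded continuation. -/
theorem not_bisim_beta {R y : ℕ} {L : List (Tm A ℕ)} (hR : 2 * L.length ≤ R) {u : Tm A ℕ}
    (hu : ∀ α u', OStep u α u' → u' ∈ L) {ζ : Closed A} :
    ¬ Bisim (u.subst (code a R)) (.seq (beta a R y) ζ) := by
  classical
  intro h
  let F : Finset ℕ := (L.map (fun v => norm (v.subst (code a R)))).toFinset ∪
    (L.map (fun v => norm (v.subst (code a R)) + 1)).toFinset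
  have hF : F.card ≤ R := by
    refine (Finset.card_union_le _ _).trans ?_
    have h1 := List.toFinset_card_le (L.map (fun v => norm (v.subst (code a R))))
    have h2 := List.toFinset_card_le (L.map (fun v => norm (v.subst (code a R)) + 1))
    simp only [List.length_map] at h1 h2
    omega
  have hsub : (Finset.range (R + 1)).image (fun i => i + norm ζ) ⊆ F := by
    intro n hn
    simp only [Finset.mem_image, Finset.mem_range] at hn
    obtain ⟨i, hi, rfl⟩ := hn
    obtain ⟨q, h1, h2⟩ := h.symm.move (step_beta_seq.mpr ⟨rfl, i, Or.inl (by omega), rfl⟩)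
    have hnorm := h2.norm_eq
    simp only [norm, norm_pw] at hnorm
    simp only [F, Finset.mem_union, List.mem_toFinset, List.mem_map]
    rcases step_subst_inv (not_down_code R) h1 with ⟨t', h3, rfl⟩ | ⟨x, t', ζ', h3, h4, h5⟩
    · exact Or.inl ⟨t', hu _ _ h3, by omega⟩
    · obtain ⟨-, rfl⟩ := step_code.mp h4
      have h6 := h5.norm_eq
      simp only [norm, norm_beta] at h6
      exact Or.inr ⟨t', hu _ _ h3, by omega⟩
  have hcard := Finset.card_le_card hsub
  rw [Finset.card_image_of_injective _ (add_left_injective _), Finset.card_range] at hcard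
  omega

/-- A sound equation is an open bisimilarity. -/
theorem oeq_of_sound (a : A) {s t : Tm A ℕ}
    (h : ∀ σ : ℕ → Closed A, Bisim (s.subst σ) (t.subst σ)) : OEq s t := by
  let L : List (Tm A ℕ) := (s :: derivs s) ++ (t :: derivs t)
  have hL : ∀ u ∈ L, ∀ α u', OStep u α u' → u' ∈ L := by
    intro u hu α u' hs
    simp only [L, List.mem_append, List.mem_cons] at hu ⊢
    rcases hu with (rfl | hu) | (rfl | hu)
    · exact Or.inl (Or.inr (mem_derivs_of_step hs))
    · exact Or.inl (Or.inr (mem_derivs_of_mem hu hs))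
    · exact Or.inr (Or.inr (mem_derivs_of_step hs))
    · exact Or.inr (Or.inr (mem_derivs_of_mem hu hs))
  let R : ℕ := 2 * L.length
  let σ := code a R
  have hσ : ∀ x, ¬ Down (σ x) := not_down_code R
  let S : Tm A ℕ → Tm A ℕ → Prop := fun u v => u ∈ L ∧ v ∈ L ∧ Bisim (u.subst σ) (v.subst σ)
  have hfwd : ∀ u v, S u v → ∀ α u', OStep u α u' → ∃ v', OStep v α v' ∧ S u' v' := by
    rintro u v ⟨hu, hv, huv⟩ α u' hs
    have hu' := hL _ hu _ _ hs
    rcases α with c | x
    · obtain ⟨d, h1, h2⟩ := huv.move (step_subst_inl hσ hs)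
      rcases step_subst_inv hσ h1 with ⟨v', h3, rfl⟩ | ⟨y, v', ζ, h3, h4, h5⟩
      · exact ⟨v', h3, hu', hL _ hv _ _ h3, h2⟩
      · exfalso
        obtain ⟨-, rfl⟩ := step_code.mp h4
        exact not_bisim_beta (R := R) (L := L) (le_refl _) (hL _ hu')
          (h2.trans (h5.trans ((bisim_eps_seq _).seq_congr (.refl _))))
    · obtain ⟨d, h1, h2⟩ := step_subst_inr hσ hs (step_code.mpr ⟨rfl, rfl⟩)
      obtain ⟨e, h3, h4⟩ := huv.move h1
      have h5 : Bisim (.seq (beta a R x) (u'.subst σ)) e :=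
        (((bisim_eps_seq _).seq_congr (.refl _)).symm.trans h2.symm).trans h4
      rcases step_subst_inv hσ h3 with ⟨v', h6, rfl⟩ | ⟨y, v', ζ, h6, h7, h8⟩
      · exact (not_bisim_beta (R := R) (L := L) (le_refl _) (hL _ (hL _ hv _ _ h6))
          h5.symm).elim
      · obtain ⟨-, rfl⟩ := step_code.mp h7
        obtain ⟨rfl, h9⟩ := decode_beta
          (h5.trans (h8.trans ((bisim_eps_seq _).seq_congr (.refl _))))
        exact ⟨v', h6, hu', hL _ hv _ _ h6, h9⟩
  refine ⟨S, ⟨?_, hfwd, ?_⟩, by simp [L], by simp [L], h σ⟩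
  · rintro u v ⟨_, _, huv⟩
    rw [← down_subst hσ, ← down_subst hσ]
    exact huv.down_iff
  · rintro u v ⟨hu, hv, huv⟩ α v' hs
    obtain ⟨u', h1, h2, h3, h4⟩ := hfwd v u ⟨hv, hu, huv.symm⟩ α v' hs
    exact ⟨u', h1, h3, h2, h4.symm⟩

end Pool.Agent.Lib.MP_32323c_lc
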