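import Mathlib.Data.Set.Finite.Basic

/-!
# BPA* with the empty process: terms, operational semantics, bisimilarity, equational logic
-/

namespace Pool.Agent.Lib.MP_32323c_lc

/-- Terms over a set `A` of actions and a set `V` of variables: the empty process, actions,
variables, alternative composition, sequential composition and the binary Kleene star. -/
inductive Tm (A V : Type) : Type where
  | eps : Tm A V
  | act : A → Tm A V
  | var : V → Tm A V
  | alt : Tm A V → Tm A V → Tm A V
  | seq : Tm A V → Tm A V → Tm A V
  | star : Tm A V → Tm A V → Tm A V

/-- Substitution of terms for variables. -/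
def Tm.subst {A V W : Type} (σ : V → Tm A W) : Tm A V → Tm A W
  | .eps => .eps
  | .act a => .act a
  | .var x => σ x
  | .alt p q => .alt (p.subst σ) (q.subst σ)
  | .seq p q => .seq (p.subst σ) (q.subst σ)
  | .star p q => .star (p.subst σ) (q.subst σ)

/-- Closed terms: terms without variables. -/
abbrev Closed (A : Type) : Type := Tm A Empty

/-- A closed term seen as a term over the variables `x₀, x₁, …`. -/
def Closed.toTm {A : Type} (p : Closed A) : Tm A ℕ := p.subst Empty.elim

/-- The termination predicate `p↓` on closed terms. -/
inductive Down {A : Type} : Closed A → Prop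
  | eps : Down .eps
  | altL {p q : Closed A} : Down p → Down (.alt p q)
  | altR {p q : Closed A} : Down q → Down (.alt p q)
  | seq {p q : Closed A} : Down p → Down q → Down (.seq p q)
  | star {p q : Closed A} : Down q → Down (.star p q)

/-- The labelled transitions between closed terms: `Step p a p'` means that `p` moves to `p'` by
performing `a`. -/
inductive Step {A : Type} : Closed A → A → Closed A → Prop
  | act (a : A) : Step (.act a) a .eps
  | altL {p q p' : Closed A} {a : A} : Step p a p' → Step (.alt p q) a p'
  | altR {p q q' : Closed A} {a : A} : Step q a q' → Step (.alt p q) a q'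
  | seqL {p q p' : Closed A} {a : A} : Step p a p' → Step (.seq p q) a (.seq p' q)
  | seqR {p q q' : Closed A} {a : A} : Down p → Step q a q' → Step (.seq p q) a q'
  | starL {p q p' : Closed A} {a : A} : Step p a p' → Step (.star p q) a (.seq p' (.star p q))
  | starR {p q q' : Closed A} {a : A} : Step q a q' → Step (.star p q) a q'

/-- A bisimulation: a symmetric relation on closed terms that matches moves and termination. -/
structure IsBisimulation {A : Type} (R : Closed A → Closed A → Prop) : Prop where
  symm : ∀ p q, R p q → R q p
  move : ∀ p q, R p q → ∀ a p', Step p a p' → ∃ q', Step q a q' ∧ R p' q'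
  down : ∀ p q, R p q → Down p → Down q

/-- Bisimilarity of closed terms: the union of all bisimulations. -/
def Bisim {A : Type} (p q : Closed A) : Prop :=
  ∃ R : Closed A → Closed A → Prop, IsBisimulation R ∧ R p q

/-- An equation `s = t` is sound if all its closed instances are valid modulo bisimilarity. -/
def Sound {A : Type} (e : Tm A ℕ × Tm A ℕ) : Prop :=
  ∀ σ : ℕ → Closed A, Bisim (e.1.subst σ) (e.2.subst σ)

/-- Derivability in equational logic from the set `E` of equations. -/
inductive Derivable {A : Type} (E : Set (Tm A ℕ × Tm A ℕ)) : Tm A ℕ → Tm A ℕ → Prop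
  | ax {e : Tm A ℕ × Tm A ℕ} (he : e ∈ E) (σ : ℕ → Tm A ℕ) :
      Derivable E (e.1.subst σ) (e.2.subst σ)
  | refl (p : Tm A ℕ) : Derivable E p p
  | symm {p q : Tm A ℕ} : Derivable E p q → Derivable E q p
  | trans {p q r : Tm A ℕ} : Derivable E p q → Derivable E q r → Derivable E p r
  | alt {p p' q q' : Tm A ℕ} : Derivable E p p' → Derivable E q q' →
      Derivable E (.alt p q) (.alt p' q')
  | seq {p p' q q' : Tm A ℕ} : Derivable E p p' → Derivable E q q' →
      Derivable E (.seq p q) (.seq p' q')
  | star {p p' q q' : Tm A ℕ} : Derivable E p p' → Derivable E q q' →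
      Derivable E (.star p q) (.star p' q')

/-- Bisimilarity over BPA* with the empty process, with action set `A`, is finitely based: some
finite set of sound equations proves every valid equation between closed terms. -/
def FinitelyBased (A : Type) : Prop :=
  ∃ E : Set (Tm A ℕ × Tm A ℕ), E.Finite ∧ (∀ e ∈ E, Sound e) ∧
    ∀ p q : Closed A, Bisim p q → Derivable E p.toTm q.toTm

end Pool.Agent.Lib.MP_32323c_lc
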