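import Pool.Agent.Lib.MP_32323c_lc.Decode

/-!
# Bisimilarity over BPA* with the empty process is not finitely based
-/

namespace Pool.Agent.Lib.MP_32323c_lc

open Tm

variable {A : Type} {a : A} {K : ℕ}

theorem subst_subst {V W U : Type} (δ : V → Tm A W) (ρ : W → Tm A U) (s : Tm A V) :
    (s.subst δ).subst ρ = s.subst (fun x => (δ x).subst ρ) := by
  induction s with
  | eps => rfl
  | act b => rfl
  | var x => rfl
  | alt p q ihp ihq => simp only [subst, ihp, ihq]
  | seq p q ihp ihq => simp only [subst, ihp, ihq]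
  | star p q ihp ihq => simp only [subst, ihp, ihq]

theorem toTm_subst (p : Closed A) (ρ : ℕ → Closed A) : (Closed.toTm p).subst ρ = p := by
  unfold Closed.toTm
  induction p with
  | eps => rfl
  | act b => rfl
  | var x => exact x.elim
  | alt p q ihp ihq => simp only [subst, ihp, ihq]
  | seq p q ihp ihq => simp only [subst, ihp, ihq]
  | star p q ihp ihq => simp only [subst, ihp, ihq]

theorem length_derivs_subst {δ : ℕ → Tm A ℕ} (hδ : ∀ x, (derivs (δ x)).length ≤ 1)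
    (s : Tm A ℕ) : (derivs (s.subst δ)).length ≤ (derivs s).length := by
  induction s with
  | eps => simp [subst, derivs]
  | act b => simp [subst, derivs]
  | var x => simpa [subst, derivs] using hδ x
  | alt p q ihp ihq => simp only [subst, derivs, List.length_append]; omega
  | seq p q ihp ihq => simp only [subst, derivs, List.length_append, List.length_map]; omega
  | star p q ihp ihq => simp only [subst, derivs, List.length_append, List.length_map]; omega

/-- Every closed term is, in the refined semantics, an instance of a variable, of a variable plus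
the empty process, or of the empty process, under a non-terminating substitution. -/
theorem exists_shape (a : A) (K : ℕ) (p : Closed A) : ∃ (δ : ℕ → Tm A ℕ) (q : Closed A),
    (∀ x, (derivs (δ x)).length ≤ 1) ∧ ¬ Down q ∧
    ∀ (x : ℕ) (ρ : ℕ → Closed A), ρ x = q → SEq a K p ((δ x).subst ρ) := by
  by_cases ht : Triv p
  · refine ⟨fun _ => .eps, .act a, fun x => by simp [derivs], by simp, fun x ρ _ => ?_⟩
    refine ⟨⟨fun _ => .eps, fun _ => ht.down⟩, fun ι τ => ⟨fun h => ?_, fun h => ?_⟩⟩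
    · exact h.eq_empty_of_triv ht
    · rw [show τ = ∅ from h]
      exact sem_of_triv ht ι
  · by_cases hd : Down p
    · obtain ⟨q, h1, h2⟩ := exists_nonterminating (a := a) (K := K) p ht
      refine ⟨fun x => .alt (.var x) .eps, q, fun x => by simp [derivs], h1, fun x ρ hρ => ?_⟩
      refine ⟨by simp [subst, hd], fun ι τ => ⟨fun h => ?_, fun h => ?_⟩⟩
      · refine ⟨τ, ∅, ?_, rfl, by simp⟩
        simp only [subst, hρ]
        exact (h2 ι τ).mp h
      · obtain ⟨τ₁, τ₂, h3, h4, rfl⟩ := h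
        rw [show τ₂ = ∅ from h4, Set.union_empty]
        simp only [subst, hρ] at h3
        exact (h2 ι τ₁).mpr h3
    · refine ⟨fun x => .var x, p, fun x => by simp [derivs], hd, fun x ρ hρ => ?_⟩
      simp only [subst, hρ]
      exact .refl _

/-- Sound equations with few derivatives are valid in the refined semantics. -/
theorem seq_of_sound (a : A) (K : ℕ) {e : Tm A ℕ × Tm A ℕ} (he : Sound e)
    (h1 : (derivs e.1).length ≤ K) (h2 : (derivs e.2).length ≤ K) (σ : ℕ → Closed A) :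
    SEq a K (e.1.subst σ) (e.2.subst σ) := by
  choose δ' q h3 h4 h5 using fun x => exists_shape a K (σ x)
  let δ : ℕ → Tm A ℕ := fun x => δ' x x
  have hδ : ∀ x, (derivs (δ x)).length ≤ 1 := fun x => h3 x x
  have hσ : ∀ x, SEq a K (σ x) ((δ x).subst q) := fun x => h5 x x q rfl
  have hoe : OEq (e.1.subst δ) (e.2.subst δ) := oeq_of_sound a (fun ρ => by
    rw [subst_subst, subst_subst]
    exact he _)
  have key : SEq a K ((e.1.subst δ).subst q) ((e.2.subst δ).subst q) := by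
    refine ⟨(hoe.bisim_subst h4).down_iff, fun ι τ => ⟨fun h => ?_, fun h => ?_⟩⟩
    · exact sem_transfer h4 hoe ((length_derivs_subst hδ _).trans h1) h
    · exact sem_transfer h4 hoe.symm ((length_derivs_subst hδ _).trans h2) h
  rw [subst_subst, subst_subst] at key
  exact ((seq_subst hσ e.1).trans key).trans (seq_subst hσ e.2).symm

theorem seq_of_derivable (a : A) (K : ℕ) {E : Set (Tm A ℕ × Tm A ℕ)} (hE : ∀ e ∈ E, Sound e)
    (h1 : ∀ e ∈ E, (derivs e.1).length ≤ K) (h2 : ∀ e ∈ E, (derivs e.2).length ≤ K)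
    {p q : Tm A ℕ} (h : Derivable E p q) (ρ : ℕ → Closed A) :
    SEq a K (p.subst ρ) (q.subst ρ) := by
  induction h with
  | ax he σ =>
    rw [subst_subst, subst_subst]
    exact seq_of_sound a K (hE _ he) (h1 _ he) (h2 _ he) _
  | refl p => exact .refl _
  | symm _ ih => exact ih.symm
  | trans _ _ ih1 ih2 => exact ih1.trans ih2
  | alt _ _ ih1 ih2 => exact ih1.alt ih2
  | seq _ _ ih1 ih2 => exact ih1.seq ih2
  | star _ _ ih1 ih2 => exact ih1.star ih2

/-! ### The witness -/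

/-- The chains. -/
def chain (a : A) (h : Closed A) : ℕ → Closed A
  | 0 => .alt (.act a) (.seq (.act a) h)
  | n + 1 => .alt (.act a) (.seq (.act a) (chain a h n))

/-- The inner body. -/
def inner (a : A) (K : ℕ) : Closed A := .seq (.act a) (chain a .eps K)

/-- The outer body. -/
def outer (a : A) (K : ℕ) : Closed A := .seq (.act a) (chain a (.alt (inner a K) .eps) K)

theorem step_act_seq {c : A} {p p' : Closed A} :
    Step (.seq (.act a) p) c p' ↔ c = a ∧ p' = .seq .eps p := by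
  simp only [step_seq, step_act, down_act, false_and, or_false]
  constructor
  · rintro ⟨_, ⟨rfl, rfl⟩, rfl⟩; exact ⟨rfl, rfl⟩
  · rintro ⟨rfl, rfl⟩; exact ⟨_, ⟨rfl, rfl⟩, rfl⟩

theorem not_down_chain (h : Closed A) (n : ℕ) : ¬ Down (chain a h n) := by
  cases n <;> simp [chain]

/-- The relation showing that the two iterations are bisimilar. -/
inductive WRel (a : A) (K : ℕ) : Closed A → Closed A → Prop
  | base : WRel a K (.star (outer a K) .eps) (.star (inner a K) .eps)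
  | exit : WRel a K (.seq (.alt (inner a K) .eps) (.star (outer a K) .eps))
      (.star (inner a K) .eps)
  | out (n : ℕ) : WRel a K (.seq (chain a (.alt (inner a K) .eps) n) (.star (outer a K) .eps))
      (.seq (chain a .eps n) (.star (inner a K) .eps))
  | inn (n : ℕ) : WRel a K (.seq (chain a .eps n) (.star (outer a K) .eps))
      (.seq (chain a .eps n) (.star (inner a K) .eps))

theorem eps_seq_seq (p q : Closed A) : Bisim (.seq (.seq .eps p) q) (.seq p q) :=
  (bisim_eps_seq p).seq_congr (.refl q)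

theorem step_star_body {c : A} {p r : Closed A} :
    Step (.star (.seq (.act a) p) .eps) c r ↔
      c = a ∧ r = .seq (.seq .eps p) (.star (.seq (.act a) p) .eps) := by
  rw [step_star]
  constructor
  · rintro (⟨p', h, rfl⟩ | h)
    · obtain ⟨rfl, rfl⟩ := step_act_seq.mp h
      exact ⟨rfl, rfl⟩
    · exact (step_eps.mp h).elim
  · rintro ⟨rfl, rfl⟩
    exact Or.inl ⟨_, step_act_seq.mpr ⟨rfl, rfl⟩, rfl⟩

theorem step_chain {n : ℕ} {c : A} {h p' : Closed A} :
    Step (chain a h n) c p' ↔ c = a ∧ (p' = .eps ∨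
      (n = 0 ∧ p' = .seq .eps h) ∨ ∃ m, n = m + 1 ∧ p' = .seq .eps (chain a h m)) := by
  cases n with
  | zero =>
    simp only [chain, step_alt, step_act, step_act_seq]
    constructor
    · rintro (⟨rfl, rfl⟩ | ⟨rfl, rfl⟩)
      · exact ⟨rfl, Or.inl rfl⟩
      · exact ⟨rfl, Or.inr (Or.inl ⟨trivial, rfl⟩)⟩
    · rintro ⟨rfl, rfl | ⟨-, rfl⟩ | ⟨m, hm, rfl⟩⟩
      · exact Or.inl ⟨rfl, rfl⟩
      · exact Or.inr ⟨rfl, rfl⟩
      · omega
  | succ n =>
    simp only [chain, step_alt, step_act, step_act_seq]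
    constructor
    · rintro (⟨rfl, rfl⟩ | ⟨rfl, rfl⟩)
      · exact ⟨rfl, Or.inl rfl⟩
      · exact ⟨rfl, Or.inr (Or.inr ⟨n, rfl, rfl⟩)⟩
    · rintro ⟨rfl, rfl | ⟨h0, rfl⟩ | ⟨m, hm, rfl⟩⟩
      · exact Or.inl ⟨rfl, rfl⟩
      · omega
      · obtain rfl : n = m := by omega
        exact Or.inr ⟨rfl, rfl⟩

theorem step_chain_seq {n : ℕ} {c : A} {h q r : Closed A} :
    Step (.seq (chain a h n) q) c r ↔ c = a ∧ (r = .seq .eps q ∨
      (n = 0 ∧ r = .seq (.seq .eps h) q) ∨
      ∃ m, n = m + 1 ∧ r = .seq (.seq .eps (chain a h m)) q) := by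
  rw [step_seq]
  constructor
  · rintro (⟨p', h1, rfl⟩ | ⟨h1, -⟩)
    · obtain ⟨rfl, rfl | ⟨h0, rfl⟩ | ⟨m, hm, rfl⟩⟩ := step_chain.mp h1
      · exact ⟨rfl, Or.inl rfl⟩
      · exact ⟨rfl, Or.inr (Or.inl ⟨h0, rfl⟩)⟩
      · exact ⟨rfl, Or.inr (Or.inr ⟨m, hm, rfl⟩)⟩
    · exact absurd h1 (not_down_chain _ _)
  · rintro ⟨rfl, rfl | ⟨h0, rfl⟩ | ⟨m, hm, rfl⟩⟩
    · exact Or.inl ⟨_, step_chain.mpr ⟨rfl, Or.inl rfl⟩, rfl⟩
    · exact Or.inl ⟨_, step_chain.mpr ⟨rfl, Or.inr (Or.inl ⟨h0, rfl⟩)⟩, rfl⟩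
    · exact Or.inl ⟨_, step_chain.mpr ⟨rfl, Or.inr (Or.inr ⟨m, hm, rfl⟩)⟩, rfl⟩

theorem step_exit {c : A} {p q r : Closed A} :
    Step (.seq (.alt (.seq (.act a) p) .eps) (.star (.seq (.act a) q) .eps)) c r ↔
      c = a ∧ (r = .seq (.seq .eps p) (.star (.seq (.act a) q) .eps) ∨
        r = .seq (.seq .eps q) (.star (.seq (.act a) q) .eps)) := by
  rw [step_seq]
  constructor
  · rintro (⟨p', h1, rfl⟩ | ⟨-, h1⟩)
    · rcases step_alt.mp h1 with h1 | h1
      · obtain ⟨rfl, rfl⟩ := step_act_seq.mp h1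
        exact ⟨rfl, Or.inl rfl⟩
      · exact (step_eps.mp h1).elim
    · obtain ⟨rfl, rfl⟩ := step_star_body.mp h1
      exact ⟨rfl, Or.inr rfl⟩
  · rintro ⟨rfl, rfl | rfl⟩
    · exact Or.inl ⟨_, step_alt.mpr (Or.inl (step_act_seq.mpr ⟨rfl, rfl⟩)), rfl⟩
    · exact Or.inr ⟨by simp, step_star_body.mpr ⟨rfl, rfl⟩⟩

/-- The two iterations are bisimilar. -/
theorem witness_bisim (a : A) (K : ℕ) :
    Bisim (.star (outer a K) .eps) (.star (inner a K) .eps) := by
  refine bisim_of_rel (WRel a K) ?_ ?_ ?_ .base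
  · intro p q h
    cases h with
    | base => simp
    | exit => simp
    | out n => simp [not_down_chain]
    | inn n => simp [not_down_chain]
  · intro p q h c p' hs
    cases h with
    | base =>
      obtain ⟨rfl, rfl⟩ := step_star_body.mp hs
      exact ⟨_, step_star_body.mpr ⟨rfl, rfl⟩, _, _, eps_seq_seq _ _, .out K,
        (eps_seq_seq _ _).symm⟩
    | exit =>
      obtain ⟨rfl, rfl | rfl⟩ := step_exit.mp hs
      · exact ⟨_, step_star_body.mpr ⟨rfl, rfl⟩, _, _, eps_seq_seq _ _, .inn K,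
          (eps_seq_seq _ _).symm⟩
      · exact ⟨_, step_star_body.mpr ⟨rfl, rfl⟩, _, _, eps_seq_seq _ _, .out K,
          (eps_seq_seq _ _).symm⟩
    | out n =>
      obtain ⟨rfl, rfl | ⟨h0, rfl⟩ | ⟨m, hm, rfl⟩⟩ := step_chain_seq.mp hs
      · exact ⟨_, step_chain_seq.mpr ⟨rfl, Or.inl rfl⟩, _, _, bisim_eps_seq _, .base,
          (bisim_eps_seq _).symm⟩
      · exact ⟨_, step_chain_seq.mpr ⟨rfl, Or.inr (Or.inl ⟨h0, rfl⟩)⟩, _, _, eps_seq_seq _ _,
          .exit, ((eps_seq_seq _ _).trans (bisim_eps_seq _)).symm⟩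
      · exact ⟨_, step_chain_seq.mpr ⟨rfl, Or.inr (Or.inr ⟨m, hm, rfl⟩)⟩, _, _,
          eps_seq_seq _ _, .out m, (eps_seq_seq _ _).symm⟩
    | inn n =>
      obtain ⟨rfl, rfl | ⟨h0, rfl⟩ | ⟨m, hm, rfl⟩⟩ := step_chain_seq.mp hs
      · exact ⟨_, step_chain_seq.mpr ⟨rfl, Or.inl rfl⟩, _, _, bisim_eps_seq _, .base,
          (bisim_eps_seq _).symm⟩
      · exact ⟨_, step_chain_seq.mpr ⟨rfl, Or.inr (Or.inl ⟨h0, rfl⟩)⟩, _, _,
          (eps_seq_seq _ _).trans (bisim_eps_seq _), .base,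
          ((eps_seq_seq _ _).trans (bisim_eps_seq _)).symm⟩
      · exact ⟨_, step_chain_seq.mpr ⟨rfl, Or.inr (Or.inr ⟨m, hm, rfl⟩)⟩, _, _,
          eps_seq_seq _ _, .inn m, (eps_seq_seq _ _).symm⟩
  · intro p q h c q' hs
    cases h with
    | base =>
      obtain ⟨rfl, rfl⟩ := step_star_body.mp hs
      exact ⟨_, step_star_body.mpr ⟨rfl, rfl⟩, _, _, eps_seq_seq _ _, .out K,
        (eps_seq_seq _ _).symm⟩
    | exit =>
      obtain ⟨rfl, rfl⟩ := step_star_body.mp hs
      exact ⟨_, step_exit.mpr ⟨rfl, Or.inr rfl⟩, _, _, eps_seq_seq _ _, .out K,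
        (eps_seq_seq _ _).symm⟩
    | out n =>
      obtain ⟨rfl, rfl | ⟨h0, rfl⟩ | ⟨m, hm, rfl⟩⟩ := step_chain_seq.mp hs
      · exact ⟨_, step_chain_seq.mpr ⟨rfl, Or.inl rfl⟩, _, _, bisim_eps_seq _, .base,
          (bisim_eps_seq _).symm⟩
      · exact ⟨_, step_chain_seq.mpr ⟨rfl, Or.inr (Or.inl ⟨h0, rfl⟩)⟩, _, _, eps_seq_seq _ _,
          .exit, ((eps_seq_seq _ _).trans (bisim_eps_seq _)).symm⟩
      · exact ⟨_, step_chain_seq.mpr ⟨rfl, Or.inr (Or.inr ⟨m, hm, rfl⟩)⟩, _, _,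
          eps_seq_seq _ _, .out m, (eps_seq_seq _ _).symm⟩
    | inn n =>
      obtain ⟨rfl, rfl | ⟨h0, rfl⟩ | ⟨m, hm, rfl⟩⟩ := step_chain_seq.mp hs
      · exact ⟨_, step_chain_seq.mpr ⟨rfl, Or.inl rfl⟩, _, _, bisim_eps_seq _, .base,
          (bisim_eps_seq _).symm⟩
      · exact ⟨_, step_chain_seq.mpr ⟨rfl, Or.inr (Or.inl ⟨h0, rfl⟩)⟩, _, _,
          (eps_seq_seq _ _).trans (bisim_eps_seq _), .base,
          ((eps_seq_seq _ _).trans (bisim_eps_seq _)).symm⟩
      · exact ⟨_, step_chain_seq.mpr ⟨rfl, Or.inr (Or.inr ⟨m, hm, rfl⟩)⟩, _, _,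
          eps_seq_seq _ _, .inn m, (eps_seq_seq _ _).symm⟩

/-! ### The refined semantics of the witness -/

theorem sem_act_seq {p : Closed A} {ι : Info A} {τ : Set (A × Lab)} {g : Lab}
    (h : Sem a K p ι τ) (hg : comb (Down p) τ ι = info a K g) :
    Sem a K (.seq (.act a) p) ι {(a, g)} :=
  ⟨{(a, g)}, τ, h, ⟨g, hg, rfl⟩, by ext x; simp⟩

theorem comb_false {τ : Set (A × Lab)} {ι : Info A} {D : Prop} (hD : ¬ D) :
    comb D τ ι = ⟨False, τ⟩ := by
  ext x
  · simp [hD]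
  · simp [mem_comb_τ, hD]

theorem sem_chain_eps (n : ℕ) : ∃ τ, Sem a K (chain a .eps n) (info a K .X) τ ∧
    comb (Down (chain a .eps n)) τ (info a K .X) = info a K (.Q n) := by
  induction n with
  | zero =>
    refine ⟨{(a, .X)} ∪ {(a, .X)}, ⟨_, _, ⟨.X, rfl, rfl⟩,
      sem_act_seq (g := .X) (τ := ∅) rfl (comb_eps _), rfl⟩, ?_⟩
    rw [comb_false (not_down_chain _ _), Set.union_self]
    rfl
  | succ n ih =>
    obtain ⟨τ, h1, h2⟩ := ih
    refine ⟨{(a, .X)} ∪ {(a, .Q n)}, ⟨_, _, ⟨.X, rfl, rfl⟩, sem_act_seq h1 h2, rfl⟩, ?_⟩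
    rw [comb_false (not_down_chain _ _)]
    rfl

theorem sem_inner (a : A) (K : ℕ) : Sem a K (inner a K) (info a K .X) {(a, .Q K)} := by
  obtain ⟨τ, h1, h2⟩ := sem_chain_eps (a := a) (K := K) K
  exact sem_act_seq h1 h2

theorem sem_chain_exit (n : ℕ) : ∃ τ, Sem a K (chain a (.alt (inner a K) .eps) n)
    (info a K .X) τ ∧
    comb (Down (chain a (.alt (inner a K) .eps) n)) τ (info a K .X) = info a K (.P n) := by
  induction n with
  | zero =>
    refine ⟨{(a, .X)} ∪ {(a, .Y)}, ⟨_, _, ⟨.X, rfl, rfl⟩,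
      sem_act_seq (g := .Y) (τ := {(a, .Q K)} ∪ ∅) ⟨_, _, sem_inner a K, rfl, rfl⟩ ?_, rfl⟩, ?_⟩
    · ext x
      · simp [info]
      · simp only [mem_comb_τ, info, Set.mem_union, Set.mem_singleton_iff,
          Set.mem_empty_iff_false, Set.mem_insert_iff, down_alt, down_eps]
        tauto
    · rw [comb_false (not_down_chain _ _)]
      rfl
  | succ n ih =>
    obtain ⟨τ, h1, h2⟩ := ih
    refine ⟨{(a, .X)} ∪ {(a, .P n)}, ⟨_, _, ⟨.X, rfl, rfl⟩, sem_act_seq h1 h2, rfl⟩, ?_⟩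
    rw [comb_false (not_down_chain _ _)]
    rfl

theorem sem_outer (a : A) (K : ℕ) : Sem a K (outer a K) (info a K .X) {(a, .P K)} := by
  obtain ⟨τ, h1, h2⟩ := sem_chain_exit (a := a) (K := K) K
  exact sem_act_seq h1 h2

/-- The two iterations are different in the refined semantics. -/
theorem witness_not_seq (a : A) (K : ℕ) :
    ¬ SEq a K (.star (outer a K) .eps) (.star (inner a K) .eps) := by
  rintro ⟨-, h⟩
  let ι₀ : Info A := ⟨True, ∅⟩
  have e : ∀ τ : Set (A × Lab), (⟨(comb (Down (A := A) .eps) ∅ ι₀).d,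
      τ ∪ (comb (Down (A := A) .eps) ∅ ι₀).τ⟩ : Info A) = ⟨True, τ⟩ := by
    intro τ
    rw [comb_eps]
    simp [ι₀]
  have h1 : Sem a K (.star (outer a K) .eps) ι₀ {(a, .P K)} := by
    refine ⟨{(a, .P K)}, ∅, rfl, ?_, by simp⟩
    rw [e]
    exact sem_outer a K
  obtain ⟨τ₁, τ₂, h2, h3, h4⟩ := (h _ _).mp h1
  obtain rfl : τ₂ = ∅ := h2
  rw [e] at h3
  rw [Set.union_empty] at h4
  subst h4
  have h5 := Sem.unique (ι := info a K .X) h3 (sem_inner a K)
  simp at h5

/-- Bisimilarity over BPA* with the empty process is not finitely based. -/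
theorem not_finitelyBased [Nonempty A] : ¬ FinitelyBased A := by
  rintro ⟨E, hfin, hsound, hcomp⟩
  obtain ⟨a⟩ := ‹Nonempty A›
  have hb : ∃ K : ℕ, ∀ e ∈ E, (derivs e.1).length ≤ K ∧ (derivs e.2).length ≤ K := by
    have : (∀ E : Set (Tm A ℕ × Tm A ℕ), E.Finite → ∃ K : ℕ, ∀ e ∈ E,
        (derivs e.1).length ≤ K ∧ (derivs e.2).length ≤ K) := by
      intro E hE
      induction E, hE using Set.Finite.induction_on with
      | empty => exact ⟨0, fun e he => he.elim⟩
      | @insert e E _ _ ih =>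
        obtain ⟨K, hK⟩ := ih
        refine ⟨K + (derivs e.1).length + (derivs e.2).length, ?_⟩
        rintro f (rfl | hf)
        · exact ⟨by omega, by omega⟩
        · have := hK f hf
          exact ⟨by omega, by omega⟩
    exact this E hfin
  obtain ⟨K, hK⟩ := hb
  have h1 := hcomp _ _ (witness_bisim a K)
  have h2 := seq_of_derivable a K hsound (fun e he => (hK e he).1) (fun e he => (hK e he).2) h1
    (fun _ => .eps)
  rw [toTm_subst, toTm_subst] at h2
  exact witness_not_seq a K h2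

end Pool.Agent.Lib.MP_32323c_lc
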