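import Pool.Agent.Lib.MP_32323c_lc.Open
import Mathlib.Data.Finset.Card
import Mathlib.Data.Finset.Image
import Mathlib.Data.List.Dedup
import Mathlib.Data.Finset.Dedup

/-!
# Open bisimilar terms of small size have the same refined semantics
-/

namespace Pool.Agent.Lib.MP_32323c_lc

open Tm

variable {A V : Type} {a : A} {K : ℕ} {σ : V → Closed A}

/-! ### Adequacy for open terms -/

theorem ofwd_var (hσ : ∀ x, ¬ Down (σ x)) {t t' : Tm A V} {ι : Info A} {τ : Set (A × Lab)}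
    (h : Sem a K (t.subst σ) ι τ) {x : V} (hs : OStep t (.inr x) t') :
    ∃ τ' τx, Sem a K (t'.subst σ) ι τ' ∧
      Sem a K (σ x) (comb (Down (t'.subst σ)) τ' ι) τx ∧ τx ⊆ τ := by
  induction t generalizing ι τ t' with
  | eps => exact hs.elim
  | act b => obtain ⟨h1, _⟩ := hs; cases h1
  | var y =>
    obtain ⟨h1, rfl⟩ := hs
    obtain rfl := Sum.inr.inj h1
    refine ⟨∅, τ, rfl, ?_, subset_rfl⟩
    simp only [subst]
    rw [comb_eps]
    exact h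
  | alt p q ihp ihq =>
    obtain ⟨τ₁, τ₂, h1, h2, rfl⟩ := h
    rcases hs with hs | hs
    · obtain ⟨τ', τx, h3, h4, h5⟩ := ihp h1 hs
      exact ⟨τ', τx, h3, h4, fun z hz => Or.inl (h5 hz)⟩
    · obtain ⟨τ', τx, h3, h4, h5⟩ := ihq h2 hs
      exact ⟨τ', τx, h3, h4, fun z hz => Or.inr (h5 hz)⟩
  | seq p q ihp ihq =>
    obtain ⟨τ₁, τ₂, h1, h2, rfl⟩ := h
    rcases hs with ⟨p', hs, rfl⟩ | ⟨hd, hs⟩
    · obtain ⟨τ', τx, h3, h4, h5⟩ := ihp h2 hs
      refine ⟨_, τx, ⟨τ', τ₂, h1, h3, rfl⟩, ?_, fun z hz => Or.inl (h5 hz)⟩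
      simp only [subst]
      rw [comb_seq]
      exact h4
    · obtain ⟨τ', τx, h3, h4, h5⟩ := ihq h1 hs
      exact ⟨τ', τx, h3, h4, fun z hz => Or.inr ⟨h5 hz, (down_subst hσ p).mpr hd⟩⟩
  | star p q ihp ihq =>
    have hself := h
    obtain ⟨τ₁, τ₂, h1, h2, rfl⟩ := h
    rcases hs with ⟨p', hs, rfl⟩ | hs
    · obtain ⟨τ', τx, h3, h4, h5⟩ := ihp h2 hs
      rw [← comb_star (p.subst σ) (q.subst σ)] at h3 h4
      refine ⟨_, τx, ⟨τ', τ₁ ∪ τ₂, hself, h3, rfl⟩, ?_, fun z hz => Or.inl (h5 hz)⟩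
      simp only [subst]
      rw [comb_seq]
      exact h4
    · obtain ⟨τ', τx, h3, h4, h5⟩ := ihq h1 hs
      exact ⟨τ', τx, h3, h4, fun z hz => Or.inr (h5 hz)⟩

theorem obwd (hσ : ∀ x, ¬ Down (σ x)) {t : Tm A V} {ι : Info A} {τ : Set (A × Lab)}
    (h : Sem a K (t.subst σ) ι τ) {c : A} {g : Lab} (hg : (c, g) ∈ τ) :
    (∃ t' τ', OStep t (.inl c) t' ∧ Sem a K (t'.subst σ) ι τ' ∧
      comb (Down (t'.subst σ)) τ' ι = info a K g) ∨
    (∃ x t' τ' τx, OStep t (.inr x) t' ∧ Sem a K (t'.subst σ) ι τ' ∧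
      Sem a K (σ x) (comb (Down (t'.subst σ)) τ' ι) τx ∧ (c, g) ∈ τx) := by
  induction t generalizing ι τ with
  | eps => rw [show τ = ∅ from h] at hg; exact hg.elim
  | act b =>
    obtain ⟨g', rfl, rfl⟩ := h
    obtain ⟨rfl, rfl⟩ := Prod.mk.inj hg
    exact Or.inl ⟨.eps, ∅, ⟨rfl, rfl⟩, rfl, comb_eps _⟩
  | var x =>
    refine Or.inr ⟨x, .eps, ∅, τ, ⟨rfl, rfl⟩, rfl, ?_, hg⟩
    simp only [subst]
    rw [comb_eps]
    exact h
  | alt p q ihp ihq =>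
    obtain ⟨τ₁, τ₂, h1, h2, rfl⟩ := h
    rcases hg with hg | hg
    · rcases ihp h1 hg with ⟨t', τ', h3, h4, h5⟩ | ⟨x, t', τ', τx, h3, h4, h5, h6⟩
      · exact Or.inl ⟨t', τ', Or.inl h3, h4, h5⟩
      · exact Or.inr ⟨x, t', τ', τx, Or.inl h3, h4, h5, h6⟩
    · rcases ihq h2 hg with ⟨t', τ', h3, h4, h5⟩ | ⟨x, t', τ', τx, h3, h4, h5, h6⟩
      · exact Or.inl ⟨t', τ', Or.inr h3, h4, h5⟩
      · exact Or.inr ⟨x, t', τ', τx, Or.inr h3, h4, h5, h6⟩
  | seq p q ihp ihq =>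
    obtain ⟨τ₁, τ₂, h1, h2, rfl⟩ := h
    rcases hg with hg | ⟨hg, hd⟩
    · rcases ihp h2 hg with ⟨t', τ', h3, h4, h5⟩ | ⟨x, t', τ', τx, h3, h4, h5, h6⟩
      · refine Or.inl ⟨_, _, Or.inl ⟨t', h3, rfl⟩, ⟨τ', τ₂, h1, h4, rfl⟩, ?_⟩
        simp only [subst]
        rw [comb_seq, h5]
      · refine Or.inr ⟨x, _, _, τx, Or.inl ⟨t', h3, rfl⟩, ⟨τ', τ₂, h1, h4, rfl⟩, ?_, h6⟩
        simp only [subst]
        rw [comb_seq]
        exact h5
    · have hd' := (down_subst hσ p).mp hd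
      rcases ihq h1 hg with ⟨t', τ', h3, h4, h5⟩ | ⟨x, t', τ', τx, h3, h4, h5, h6⟩
      · exact Or.inl ⟨t', τ', Or.inr ⟨hd', h3⟩, h4, h5⟩
      · exact Or.inr ⟨x, t', τ', τx, Or.inr ⟨hd', h3⟩, h4, h5, h6⟩
  | star p q ihp ihq =>
    have hself := h
    obtain ⟨τ₁, τ₂, h1, h2, rfl⟩ := h
    rcases hg with hg | hg
    · rcases ihp h2 hg with ⟨t', τ', h3, h4, h5⟩ | ⟨x, t', τ', τx, h3, h4, h5, h6⟩
      · rw [← comb_star (p.subst σ) (q.subst σ)] at h4 h5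
        refine Or.inl ⟨_, _, Or.inl ⟨t', h3, rfl⟩, ⟨τ', τ₁ ∪ τ₂, hself, h4, rfl⟩, ?_⟩
        simp only [subst]
        rw [comb_seq, h5]
      · rw [← comb_star (p.subst σ) (q.subst σ)] at h4 h5
        refine Or.inr ⟨x, _, _, τx, Or.inl ⟨t', h3, rfl⟩, ⟨τ', τ₁ ∪ τ₂, hself, h4, rfl⟩, ?_, h6⟩
        simp only [subst]
        rw [comb_seq]
        exact h5
    · rcases ihq h1 hg with ⟨t', τ', h3, h4, h5⟩ | ⟨x, t', τ', τx, h3, h4, h5, h6⟩
      · exact Or.inl ⟨t', τ', Or.inr h3, h4, h5⟩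
      · exact Or.inr ⟨x, t', τ', τx, Or.inr h3, h4, h5, h6⟩

/-! ### Propagation of conflicts -/

/-- The information of the open term `t` (under `σ`, before a continuation with information `ι`)
is `ω`. -/
def Val (a : A) (K : ℕ) (σ : V → Closed A) (ι : Info A) (t : Tm A V) (ω : Info A) : Prop :=
  ∃ τ, Sem a K (t.subst σ) ι τ ∧ ω = comb (Down (t.subst σ)) τ ι

theorem Val.unique {ι : Info A} {t : Tm A V} {ω ω' : Info A} (h : Val a K σ ι t ω)
    (h' : Val a K σ ι t ω') : ω = ω' := by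
  obtain ⟨τ, h1, rfl⟩ := h
  obtain ⟨τ', h1', rfl⟩ := h'
  rw [h1.unique h1']

theorem Val.ipiEq (hσ : ∀ x, ¬ Down (σ x)) {ι : Info A} {s t : Tm A V} {ω ω' : Info A}
    (hst : OEq s t) (h : Val a K σ ι s ω) (h' : Val a K σ ι t ω') : IPiEq ω ω' := by
  obtain ⟨τ, h1, rfl⟩ := h
  obtain ⟨τ', h1', rfl⟩ := h'
  have hb := hst.bisim_subst hσ
  have := piEq_of_bisim hb h1 h1'
  rw [show Down (t.subst σ) = Down (s.subst σ) from propext hb.down_iff.symm]
  exact IPiEq.comb this ⟨Iff.rfl, .refl _⟩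

/-- The key step: an element of `τ₂` which is not in `τ₁` gives a conflict one move later. -/
theorem conflict_step (hσ : ∀ x, ¬ Down (σ x)) {ι : Info A} {s₁ s₂ : Tm A V}
    {ω₁ ω₂ : Info A} (hs : OEq s₁ s₂) (h1 : Val a K σ ι s₁ ω₁) (h2 : Val a K σ ι s₂ ω₂)
    {c : A} {g : Lab} (hg2 : (c, g) ∈ ω₂.τ) (hg1 : (c, g) ∉ ω₁.τ) :
    ∃ α s₁' s₂' ω₁' ω₂', OStep s₁ α s₁' ∧ OStep s₂ α s₂' ∧ OEq s₁' s₂' ∧
      Val a K σ ι s₁' ω₁' ∧ Val a K σ ι s₂' ω₂' ∧
      ((∃ g', ω₂' = info a K g ∧ ω₁' = info a K g' ∧ g' ≠ g ∧ pi g' = pi g) ∨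
       (labNorm g = 0 ∧ ((a, Lab.Q K) ∈ ω₂'.τ ∧ (a, Lab.Q K) ∉ ω₁'.τ ∨
          (a, Lab.Q K) ∈ ω₁'.τ ∧ (a, Lab.Q K) ∉ ω₂'.τ))) := by
  obtain ⟨τ₁, h1, rfl⟩ := h1
  obtain ⟨τ₂, h2, rfl⟩ := h2
  have hdd : Down (s₁.subst σ) ↔ Down (s₂.subst σ) := by
    rw [down_subst hσ, down_subst hσ, hs.down]
  rcases mem_comb_τ.mp hg2 with hg2 | ⟨hg2, hd⟩
  swap
  · exact absurd (Or.inr ⟨hg2, hdd.mpr hd⟩) hg1
  have hg1' : (c, g) ∉ τ₁ := fun h => hg1 (Or.inl h)
  rcases obwd hσ h2 hg2 with ⟨s₂', τ₂', h3, h4, h5⟩ | ⟨x, s₂', τ₂', τx, h3, h4, h5, h6⟩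
  · obtain ⟨s₁', h7, h8⟩ := hs.symm.fwd h3
    obtain ⟨τ₁', g', h9, h10, h11⟩ := h1.fwd (step_subst_inl hσ h7)
    refine ⟨.inl c, s₁', s₂', _, _, h7, h3, h8.symm, ⟨τ₁', h9, rfl⟩, ⟨τ₂', h4, rfl⟩,
      Or.inl ⟨g', h5, h10, ?_, ?_⟩⟩
    · rintro rfl
      exact hg1' h11
    · apply pi_eq_of_info (a := a) (K := K)
      rw [← h5, ← h10]
      exact Val.ipiEq hσ h8.symm ⟨τ₁', h9, rfl⟩ ⟨τ₂', h4, rfl⟩
  · obtain ⟨s₁', h7, h8⟩ := hs.symm.fwd h3
    obtain ⟨τ₁', τx', h9, h10, h11⟩ := ofwd_var hσ h1 h7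
    obtain ⟨ζ, τζ, h12, h13, h14⟩ := h5.bwd h6
    obtain ⟨τζ', g', h15, h16, h17⟩ := h10.fwd h12
    have hpi : IPiEq (comb (Down (s₁'.subst σ)) τ₁' ι) (comb (Down (s₂'.subst σ)) τ₂' ι) :=
      Val.ipiEq hσ h8.symm ⟨τ₁', h9, rfl⟩ ⟨τ₂', h4, rfl⟩
    have hne : g' ≠ g := by
      rintro rfl
      exact hg1' (h11 h17)
    have hpig := pi_eq_of_comb h15 h16 h13 h14 hpi
    refine ⟨.inr x, s₁', s₂', _, _, h7, h3, h8.symm, ⟨τ₁', h9, rfl⟩, ⟨τ₂', h4, rfl⟩, ?_⟩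
    have hle := labNorm_le g
    by_cases hg : labNorm g = 1
    · left
      have ht := triv_of_mid h13 h14 h15 h16 hpi.symm hg hne.symm
      have e1 := h13.eq_empty_of_triv ht
      have e2 := h15.eq_empty_of_triv ht
      have hcomb : ∀ ω : Info A, comb (Down ζ) ∅ ω = ω := by
        intro ω
        ext z
        · simp [ht.down]
        · simp [mem_comb_τ, ht.down]
      rw [e1, hcomb] at h14
      rw [e2, hcomb] at h16
      exact ⟨g', h14, h16, hne, hpig⟩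
    · right
      have hg0 : labNorm g = 0 := by omega
      refine ⟨hg0, ?_⟩
      obtain ⟨hn, _⟩ := pi_eq_iff.mp hpig
      cases g with
      | X =>
        cases g' with
        | X => exact absurd rfl hne
        | Y => exact Or.inr (rnd_conflict h13 h14 h15 h16 hpi.symm)
        | P n => simp [labNorm] at hn
        | Q n => simp [labNorm] at hn
      | Y =>
        cases g' with
        | X => exact Or.inl (rnd_conflict h15 h16 h13 h14 hpi)
        | Y => exact absurd rfl hne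
        | P n => simp [labNorm] at hn
        | Q n => simp [labNorm] at hn
      | P n => simp [labNorm] at hg0
      | Q n => simp [labNorm] at hg0

/-- A round-level conflict. -/
def RConf (a : A) (K : ℕ) (σ : V → Closed A) (ι : Info A) (s₁ s₂ : Tm A V) : Prop :=
  OEq s₁ s₂ ∧ ∃ ω₁ ω₂, Val a K σ ι s₁ ω₁ ∧ Val a K σ ι s₂ ω₂ ∧
    (a, Lab.Q K) ∈ ω₂.τ ∧ (a, Lab.Q K) ∉ ω₁.τ

/-- A mid-level conflict at level `n`. -/
def MConf (a : A) (K : ℕ) (σ : V → Closed A) (ι : Info A) (n : ℕ) (s₁ s₂ : Tm A V) : Prop :=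
  OEq s₁ s₂ ∧ Val a K σ ι s₁ (info a K (.P n)) ∧ Val a K σ ι s₂ (info a K (.Q n))

theorem RConf.next (hσ : ∀ x, ¬ Down (σ x)) {ι : Info A} {s₁ s₂ : Tm A V}
    (h : RConf a K σ ι s₁ s₂) :
    ∃ α s₁' s₂', OStep s₁ α s₁' ∧ OStep s₂ α s₂' ∧ MConf a K σ ι K s₁' s₂' := by
  obtain ⟨hs, ω₁, ω₂, h1, h2, h3, h4⟩ := h
  obtain ⟨α, s₁', s₂', ω₁', ω₂', h5, h6, h7, h8, h9, h10⟩ := conflict_step hσ hs h1 h2 h3 h4
  refine ⟨α, s₁', s₂', h5, h6, h7, ?_⟩
  rcases h10 with ⟨g', rfl, rfl, hne, hpi⟩ | ⟨h, _⟩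
  · cases g' with
    | X => simp [pi] at hpi
    | Y => simp [pi] at hpi
    | P n =>
      simp only [pi, Lab.Q.injEq] at hpi
      subst hpi
      exact ⟨h8, h9⟩
    | Q n =>
      simp only [pi, Lab.Q.injEq] at hpi
      subst hpi
      exact absurd rfl hne
  · simp [labNorm] at h

theorem MConf.next (hσ : ∀ x, ¬ Down (σ x)) {ι : Info A} {n : ℕ} {s₁ s₂ : Tm A V}
    (h : MConf a K σ ι (n + 1) s₁ s₂) :
    ∃ α s₁' s₂', OStep s₁ α s₁' ∧ OStep s₂ α s₂' ∧ MConf a K σ ι n s₁' s₂' := by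
  obtain ⟨hs, h1, h2⟩ := h
  obtain ⟨α, s₂', s₁', ω₂', ω₁', h5, h6, h7, h8, h9, h10⟩ :=
    conflict_step hσ hs.symm h2 h1 (c := a) (g := .P n) (by simp [info]) (by simp [info])
  refine ⟨α, s₁', s₂', h6, h5, h7.symm, ?_⟩
  rcases h10 with ⟨g', rfl, rfl, hne, hpi⟩ | ⟨h, _⟩
  · cases g' with
    | X => simp [pi] at hpi
    | Y => simp [pi] at hpi
    | P m =>
      simp only [pi, Lab.Q.injEq] at hpi
      subst hpi
      exact absurd rfl hne
    | Q m =>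
      simp only [pi, Lab.Q.injEq] at hpi
      subst hpi
      exact ⟨h9, h8⟩
  · simp [labNorm] at h

theorem MConf.last (hσ : ∀ x, ¬ Down (σ x)) {ι : Info A} {s₁ s₂ : Tm A V}
    (h : MConf a K σ ι 0 s₁ s₂) :
    ∃ α s₁' s₂', OStep s₁ α s₁' ∧ OStep s₂ α s₂' ∧
      (RConf a K σ ι s₁' s₂' ∨ RConf a K σ ι s₂' s₁') := by
  obtain ⟨hs, h1, h2⟩ := h
  obtain ⟨α, s₂', s₁', ω₂', ω₁', h5, h6, h7, h8, h9, h10⟩ :=
    conflict_step hσ hs.symm h2 h1 (c := a) (g := .Y) (by simp [info]) (by simp [info])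
  refine ⟨α, s₁', s₂', h6, h5, ?_⟩
  rcases h10 with ⟨g', rfl, rfl, hne, hpi⟩ | ⟨_, ⟨h, h'⟩ | ⟨h, h'⟩⟩
  · right
    refine ⟨h7, _, _, h8, h9, ?_, ?_⟩
    · simp [info]
    · cases g' with
      | X => simp [info]
      | Y => exact absurd rfl hne
      | P m => simp [pi] at hpi
      | Q m => simp [pi] at hpi
  · exact Or.inr ⟨h7, _, _, h8, h9, h, h'⟩
  · exact Or.inl ⟨h7.symm, _, _, h9, h8, h, h'⟩

/-- A chain of mid-level conflicts going down. -/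
theorem MConf.chain (hσ : ∀ x, ¬ Down (σ x)) {ι : Info A} (D : List (Tm A V))
    (hD : ∀ u ∈ D, ∀ α u', OStep u α u' → u' ∈ D) :
    ∀ (n : ℕ) (s₁ s₂ : Tm A V), s₁ ∈ D → s₂ ∈ D → MConf a K σ ι n s₁ s₂ →
      (∀ m ≤ n, ∃ u ∈ D, Val a K σ ι u (info a K (.P m))) ∧
      ∃ s₁' ∈ D, ∃ s₂' ∈ D, RConf a K σ ι s₁' s₂' := by
  intro n
  induction n with
  | zero =>
    intro s₁ s₂ h1 h2 h
    refine ⟨fun m hm => ⟨s₁, h1, ?_⟩, ?_⟩
    · obtain rfl : m = 0 := by omega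
      exact h.2.1
    · obtain ⟨α, s₁', s₂', h3, h4, h5 | h5⟩ := h.last hσ
      · exact ⟨s₁', hD _ h1 _ _ h3, s₂', hD _ h2 _ _ h4, h5⟩
      · exact ⟨s₂', hD _ h2 _ _ h4, s₁', hD _ h1 _ _ h3, h5⟩
  | succ n ih =>
    intro s₁ s₂ h1 h2 h
    obtain ⟨α, s₁', s₂', h3, h4, h5⟩ := h.next hσ
    obtain ⟨h6, h7⟩ := ih s₁' s₂' (hD _ h1 _ _ h3) (hD _ h2 _ _ h4) h5
    refine ⟨fun m hm => ?_, h7⟩
    by_cases hmn : m = n + 1
    · subst hmn
      exact ⟨s₁, h1, h.2.1⟩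
    · exact h6 m (by omega)

/-- There is no round-level conflict inside a small closed set of open terms. -/
theorem not_RConf (hσ : ∀ x, ¬ Down (σ x)) {ι : Info A} (D : List (Tm A V))
    (hD : ∀ u ∈ D, ∀ α u', OStep u α u' → u' ∈ D) (hlen : D.length ≤ K)
    {s₁ s₂ : Tm A V} (h1 : s₁ ∈ D) (h2 : s₂ ∈ D) : ¬ RConf a K σ ι s₁ s₂ := by
  classical
  intro h
  obtain ⟨α, s₁', s₂', h3, h4, h5⟩ := h.next hσ
  obtain ⟨h6, -⟩ := MConf.chain hσ D hD K s₁' s₂' (hD _ h1 _ _ h3) (hD _ h2 _ _ h4) h5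
  choose u hu hv using fun m : Fin (K + 1) => h6 m (by omega)
  have hinj : Function.Injective u := by
    intro m n hmn
    have e := (hv m).unique (hmn ▸ hv n)
    have := info_injective a K e
    simp only [Lab.P.injEq] at this
    exact Fin.ext this
  have hcard : (Finset.univ.image u).card = K + 1 := by
    rw [Finset.card_image_of_injective _ hinj, Finset.card_univ, Fintype.card_fin]
  have hsub : Finset.univ.image u ⊆ D.toFinset := by
    intro x hx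
    obtain ⟨m, -, rfl⟩ := Finset.mem_image.mp hx
    exact List.mem_toFinset.mpr (hu m)
  have := Finset.card_le_card hsub
  have := D.toFinset_card_le
  omega

/-- No conflict at all inside a small closed set of open terms. -/
theorem val_eq (hσ : ∀ x, ¬ Down (σ x)) {ι : Info A} (D : List (Tm A V))
    (hD : ∀ u ∈ D, ∀ α u', OStep u α u' → u' ∈ D) (hlen : D.length ≤ K)
    {s₁ s₂ : Tm A V} (h1 : ∀ α u, OStep s₁ α u → u ∈ D) (h2 : ∀ α u, OStep s₂ α u → u ∈ D)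
    (hs : OEq s₁ s₂) {ω₁ ω₂ : Info A} (hv1 : Val a K σ ι s₁ ω₁) (hv2 : Val a K σ ι s₂ ω₂) :
    ω₁ = ω₂ := by
  have key : ∀ {s₁ s₂ : Tm A V} {ω₁ ω₂ : Info A}, (∀ α u, OStep s₁ α u → u ∈ D) →
      (∀ α u, OStep s₂ α u → u ∈ D) → OEq s₁ s₂ → Val a K σ ι s₁ ω₁ → Val a K σ ι s₂ ω₂ →
      ∀ x ∈ ω₂.τ, x ∈ ω₁.τ := by
    intro s₁ s₂ ω₁ ω₂ h1 h2 hs hv1 hv2 x hx
    by_contra hx'
    obtain ⟨α, s₁', s₂', ω₁', ω₂', h5, h6, h7, h8, h9, h10⟩ :=
      conflict_step hσ hs hv1 hv2 (c := x.1) (g := x.2) hx hx'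
    have d1 := h1 _ _ h5
    have d2 := h2 _ _ h6
    have nR := fun {u v : Tm A V} (hu : u ∈ D) (hv : v ∈ D) =>
      not_RConf (a := a) (K := K) hσ (ι := ι) D hD hlen hu hv
    have nM : ∀ {n : ℕ} {u v : Tm A V}, u ∈ D → v ∈ D → ¬ MConf a K σ ι n u v := by
      intro n u v hu hv h
      obtain ⟨-, s, hs, t, ht, hst⟩ := MConf.chain hσ D hD n u v hu hv h
      exact nR hs ht hst
    rcases h10 with ⟨g', rfl, rfl, hne, hpi⟩ | ⟨_, ⟨h, h'⟩ | ⟨h, h'⟩⟩
    · generalize x.2 = g at *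
      cases g with
      | X =>
        cases g' with
        | X => exact hne rfl
        | Y => exact nR d2 d1 ⟨h7.symm, _, _, h9, h8, by simp [info], by simp [info]⟩
        | P n => simp [pi] at hpi
        | Q n => simp [pi] at hpi
      | Y =>
        cases g' with
        | X => exact nR d1 d2 ⟨h7, _, _, h8, h9, by simp [info], by simp [info]⟩
        | Y => exact hne rfl
        | P n => simp [pi] at hpi
        | Q n => simp [pi] at hpi
      | P n =>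
        cases g' with
        | X => simp [pi] at hpi
        | Y => simp [pi] at hpi
        | P m =>
          simp only [pi, Lab.Q.injEq] at hpi
          subst hpi
          exact hne rfl
        | Q m =>
          simp only [pi, Lab.Q.injEq] at hpi
          subst hpi
          exact nM d2 d1 ⟨h7.symm, h9, h8⟩
      | Q n =>
        cases g' with
        | X => simp [pi] at hpi
        | Y => simp [pi] at hpi
        | P m =>
          simp only [pi, Lab.Q.injEq] at hpi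
          subst hpi
          exact nM d1 d2 ⟨h7, h8, h9⟩
        | Q m =>
          simp only [pi, Lab.Q.injEq] at hpi
          subst hpi
          exact hne rfl
    · exact nR d1 d2 ⟨h7, _, _, h8, h9, h, h'⟩
    · exact nR d2 d1 ⟨h7.symm, _, _, h9, h8, h, h'⟩
  have hpi := Val.ipiEq hσ hs hv1 hv2
  ext x
  · exact hpi.1
  · exact ⟨key h2 h1 hs.symm hv2 hv1 x, key h1 h2 hs hv1 hv2 x⟩

/-! ### Completeness of local labellings -/

/-- The labelled transitions of an open term computed from the values of its derivatives. -/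
def ptau (a : A) (K : ℕ) (σ : V → Closed A) (v : Tm A V → Info A) (t : Tm A V) :
    Set (A × Lab) :=
  {x | (∃ t', OStep t (.inl x.1) t' ∧ v t' = info a K x.2) ∨
    (∃ y t' τy, OStep t (.inr y) t' ∧ Sem a K (σ y) (v t') τy ∧ x ∈ τy)}

/-- The values of the immediate derivatives of an open term are admissible. -/
def Adm (a : A) (K : ℕ) (σ : V → Closed A) (v : Tm A V → Info A) (t : Tm A V) : Prop :=
  (∀ c t', OStep t (.inl c) t' → ∃ g, v t' = info a K g) ∧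
  (∀ y t', OStep t (.inr y) t' → ∃ τy, Sem a K (σ y) (v t') τy)

theorem sem_of_local (hσ : ∀ x, ¬ Down (σ x)) (t : Tm A V) (ι : Info A) (v : Tm A V → Info A)
    (hv : ∀ t' ∈ derivs t, v t' = comb (ODown t') (ptau a K σ v t') ι ∧ Adm a K σ v t')
    (hg : Adm a K σ v t) : Sem a K (t.subst σ) ι (ptau a K σ v t) := by
  induction t generalizing ι v with
  | eps =>
    show ptau a K σ v .eps = ∅
    ext x
    simp [ptau, OStep]
  | act b =>
    obtain ⟨g, hgg⟩ := hg.1 b .eps ⟨rfl, rfl⟩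
    have h0 := (hv .eps (by simp [derivs])).1
    have h1 : v .eps = ι := by
      rw [h0]
      ext x
      · simp [ODown]
      · simp [mem_comb_τ, ODown, ptau, OStep]
    refine ⟨g, by rw [← h1, hgg], ?_⟩
    ext ⟨c, g'⟩
    simp only [ptau, OStep, Set.mem_ofPred_eq, Set.mem_singleton_iff, Prod.mk.injEq]
    constructor
    · rintro (⟨t', ⟨h2, rfl⟩, h3⟩ | ⟨y, t', τy, ⟨h2, _⟩, _⟩)
      · exact ⟨Sum.inl.inj h2, info_injective a K (h3.symm.trans hgg)⟩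
      · cases h2
    · rintro ⟨rfl, rfl⟩
      exact Or.inl ⟨.eps, ⟨rfl, rfl⟩, hgg⟩
  | var x =>
    obtain ⟨τx, hx⟩ := hg.2 x .eps ⟨rfl, rfl⟩
    have h0 := (hv .eps (by simp [derivs])).1
    have h1 : v .eps = ι := by
      rw [h0]
      ext x
      · simp [ODown]
      · simp [mem_comb_τ, ODown, ptau, OStep]
    have h2 : ptau a K σ v (.var x) = τx := by
      ext ⟨c, g'⟩
      simp only [ptau, OStep, Set.mem_ofPred_eq]
      constructor
      · rintro (⟨t', ⟨h2, _⟩, _⟩ | ⟨y, t', τy, ⟨h2, rfl⟩, h3, h4⟩)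
        · cases h2
        · obtain rfl := Sum.inr.inj h2
          rwa [h3.unique hx] at h4
      · intro h
        exact Or.inr ⟨x, .eps, τx, ⟨rfl, rfl⟩, hx, h⟩
    rw [h2, ← h1]
    exact hx
  | alt p q ihp ihq =>
    refine ⟨ptau a K σ v p, ptau a K σ v q, ?_, ?_, ?_⟩
    · refine ihp ι v (fun t' ht' => hv t' (by simp [derivs, ht'])) ⟨?_, ?_⟩
      · exact fun c t' h => hg.1 c t' (Or.inl h)
      · exact fun y t' h => hg.2 y t' (Or.inl h)
    · refine ihq ι v (fun t' ht' => hv t' (by simp [derivs, ht'])) ⟨?_, ?_⟩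
      · exact fun c t' h => hg.1 c t' (Or.inr h)
      · exact fun y t' h => hg.2 y t' (Or.inr h)
    · ext x
      simp only [ptau, OStep, Set.mem_ofPred_eq, Set.mem_union]
      constructor
      · rintro (⟨t', h1 | h1, h2⟩ | ⟨y, t', τy, h1 | h1, h2, h3⟩)
        · exact Or.inl (Or.inl ⟨t', h1, h2⟩)
        · exact Or.inr (Or.inl ⟨t', h1, h2⟩)
        · exact Or.inl (Or.inr ⟨y, t', τy, h1, h2, h3⟩)
        · exact Or.inr (Or.inr ⟨y, t', τy, h1, h2, h3⟩)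
      · rintro ((⟨t', h1, h2⟩ | ⟨y, t', τy, h1, h2, h3⟩) |
          (⟨t', h1, h2⟩ | ⟨y, t', τy, h1, h2, h3⟩))
        · exact Or.inl ⟨t', Or.inl h1, h2⟩
        · exact Or.inr ⟨y, t', τy, Or.inl h1, h2, h3⟩
        · exact Or.inl ⟨t', Or.inr h1, h2⟩
        · exact Or.inr ⟨y, t', τy, Or.inr h1, h2, h3⟩
  | seq p q ihp ihq =>
    -- the immediate derivatives of `q` are admissible
    have hadmq : Adm a K σ v q := by
      rcases exists_reach_down p with hd | ⟨p', h1, h2⟩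
      · exact ⟨fun c t' h => hg.1 c t' (Or.inr ⟨hd, h⟩), fun y t' h => hg.2 y t' (Or.inr ⟨hd, h⟩)⟩
      · have hp' : p' ∈ derivs p := by
          have : ∀ {u w : Tm A V}, OReach u w → w ∈ derivs u := by
            intro u w h
            induction h with
            | single h => obtain ⟨α, h⟩ := h; exact mem_derivs_of_step h
            | tail _ h ih => obtain ⟨α, h⟩ := h; exact mem_derivs_of_mem ih h
          exact this h1
        have := (hv (.seq p' q) (by simp [derivs, hp'])).2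
        exact ⟨fun c t' h => this.1 c t' (Or.inr ⟨h2, h⟩),
          fun y t' h => this.2 y t' (Or.inr ⟨h2, h⟩)⟩
    have hq := ihq ι v (fun t' ht' => hv t' (by simp [derivs, ht'])) hadmq
    have hpt : ∀ p' : Tm A V, ptau a K σ v (.seq p' q) =
        ptau a K σ (fun p' => v (.seq p' q)) p' ∪ {x | x ∈ ptau a K σ v q ∧ ODown p'} := by
      intro p'
      ext x
      simp only [ptau, OStep, Set.mem_ofPred_eq, Set.mem_union]
      constructor
      · rintro (⟨t', ⟨p'', h1, rfl⟩ | ⟨hd, h1⟩, h2⟩ | ⟨y, t', τy, ⟨p'', h1, rfl⟩ | ⟨hd, h1⟩, h2, h3⟩)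
        · exact Or.inl (Or.inl ⟨p'', h1, h2⟩)
        · exact Or.inr ⟨Or.inl ⟨t', h1, h2⟩, hd⟩
        · exact Or.inl (Or.inr ⟨y, p'', τy, h1, h2, h3⟩)
        · exact Or.inr ⟨Or.inr ⟨y, t', τy, h1, h2, h3⟩, hd⟩
      · rintro ((⟨t', h1, h2⟩ | ⟨y, t', τy, h1, h2, h3⟩) |
          ⟨⟨t', h1, h2⟩ | ⟨y, t', τy, h1, h2, h3⟩, hd⟩)
        · exact Or.inl ⟨_, Or.inl ⟨t', h1, rfl⟩, h2⟩
        · exact Or.inr ⟨y, _, τy, Or.inl ⟨t', h1, rfl⟩, h2, h3⟩
        · exact Or.inl ⟨t', Or.inr ⟨hd, h1⟩, h2⟩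
        · exact Or.inr ⟨y, t', τy, Or.inr ⟨hd, h1⟩, h2, h3⟩
    have hp := ihp (comb (Down (q.subst σ)) (ptau a K σ v q) ι) (fun p' => v (.seq p' q))
      (fun p' hp' => by
        obtain ⟨h1, h2⟩ := hv (.seq p' q) (by simp [derivs, hp'])
        refine ⟨?_, fun c t' h => ?_, fun y t' h => ?_⟩
        · rw [h1, hpt p', show Down (q.subst σ) = ODown q from propext (down_subst hσ q)]
          ext x
          · simp only [comb_d, ODown]
            tauto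
          · simp only [mem_comb_τ, Set.mem_union, ODown, Set.mem_ofPred_eq]
            tauto
        · exact h2.1 c _ (Or.inl ⟨t', h, rfl⟩)
        · exact h2.2 y _ (Or.inl ⟨t', h, rfl⟩))
      ⟨fun c t' h => hg.1 c _ (Or.inl ⟨t', h, rfl⟩), fun y t' h => hg.2 y _ (Or.inl ⟨t', h, rfl⟩)⟩
    refine ⟨_, _, hq, hp, ?_⟩
    rw [hpt p, show Down (p.subst σ) = ODown p from propext (down_subst hσ p)]
  | star p q ihp ihq =>
    have hadmq : Adm a K σ v q :=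
      ⟨fun c t' h => hg.1 c t' (Or.inr h), fun y t' h => hg.2 y t' (Or.inr h)⟩
    have hq := ihq ι v (fun t' ht' => hv t' (by simp [derivs, ht'])) hadmq
    have hpt : ptau a K σ v (.star p q) =
        ptau a K σ (fun p' => v (.seq p' (.star p q))) p ∪ ptau a K σ v q := by
      ext x
      simp only [ptau, OStep, Set.mem_ofPred_eq, Set.mem_union]
      constructor
      · rintro (⟨t', ⟨p'', h1, rfl⟩ | h1, h2⟩ | ⟨y, t', τy, ⟨p'', h1, rfl⟩ | h1, h2, h3⟩)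
        · exact Or.inl (Or.inl ⟨p'', h1, h2⟩)
        · exact Or.inr (Or.inl ⟨t', h1, h2⟩)
        · exact Or.inl (Or.inr ⟨y, p'', τy, h1, h2, h3⟩)
        · exact Or.inr (Or.inr ⟨y, t', τy, h1, h2, h3⟩)
      · rintro ((⟨t', h1, h2⟩ | ⟨y, t', τy, h1, h2, h3⟩) |
          (⟨t', h1, h2⟩ | ⟨y, t', τy, h1, h2, h3⟩))
        · exact Or.inl ⟨_, Or.inl ⟨t', h1, rfl⟩, h2⟩
        · exact Or.inr ⟨y, _, τy, Or.inl ⟨t', h1, rfl⟩, h2, h3⟩
        · exact Or.inl ⟨t', Or.inr h1, h2⟩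
        · exact Or.inr ⟨y, t', τy, Or.inr h1, h2, h3⟩
    have hpt' : ∀ p' : Tm A V, ptau a K σ v (.seq p' (.star p q)) =
        ptau a K σ (fun p' => v (.seq p' (.star p q))) p' ∪
          {x | x ∈ ptau a K σ v (.star p q) ∧ ODown p'} := by
      intro p'
      ext x
      simp only [ptau, Set.mem_ofPred_eq, Set.mem_union]
      constructor
      · rintro (⟨t', ⟨p'', h1, rfl⟩ | ⟨hd, h1⟩, h2⟩ | ⟨y, t', τy, ⟨p'', h1, rfl⟩ | ⟨hd, h1⟩, h2, h3⟩)
        · exact Or.inl (Or.inl ⟨p'', h1, h2⟩)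
        · exact Or.inr ⟨Or.inl ⟨t', h1, h2⟩, hd⟩
        · exact Or.inl (Or.inr ⟨y, p'', τy, h1, h2, h3⟩)
        · exact Or.inr ⟨Or.inr ⟨y, t', τy, h1, h2, h3⟩, hd⟩
      · rintro ((⟨t', h1, h2⟩ | ⟨y, t', τy, h1, h2, h3⟩) |
          ⟨⟨t', h1, h2⟩ | ⟨y, t', τy, h1, h2, h3⟩, hd⟩)
        · exact Or.inl ⟨_, Or.inl ⟨t', h1, rfl⟩, h2⟩
        · exact Or.inr ⟨y, _, τy, Or.inl ⟨t', h1, rfl⟩, h2, h3⟩
        · exact Or.inl ⟨t', Or.inr ⟨hd, h1⟩, h2⟩
        · exact Or.inr ⟨y, t', τy, Or.inr ⟨hd, h1⟩, h2, h3⟩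
    have hp := ihp ⟨(comb (Down (q.subst σ)) (ptau a K σ v q) ι).d,
        ptau a K σ (fun p' => v (.seq p' (.star p q))) p ∪
          (comb (Down (q.subst σ)) (ptau a K σ v q) ι).τ⟩ (fun p' => v (.seq p' (.star p q)))
      (fun p' hp' => by
        obtain ⟨h1, h2⟩ := hv (.seq p' (.star p q)) (by simp [derivs, hp'])
        refine ⟨?_, fun c t' h => ?_, fun y t' h => ?_⟩
        · rw [h1, hpt' p', hpt, show Down (q.subst σ) = ODown q from propext (down_subst hσ q)]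
          ext x
          · simp only [comb_d, ODown]
            tauto
          · simp only [mem_comb_τ, Set.mem_union, ODown, Set.mem_ofPred_eq]
            tauto
        · exact h2.1 c _ (Or.inl ⟨t', h, rfl⟩)
        · exact h2.2 y _ (Or.inl ⟨t', h, rfl⟩))
      ⟨fun c t' h => hg.1 c _ (Or.inl ⟨t', h, rfl⟩), fun y t' h => hg.2 y _ (Or.inl ⟨t', h, rfl⟩)⟩
    exact ⟨_, _, hq, hp, hpt⟩

/-! ### The main transfer theorem -/

theorem sem_transfer (hσ : ∀ x, ¬ Down (σ x)) {s t : Tm A V} (hst : OEq s t)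
    (hlen : (derivs s).length ≤ K) {ι : Info A} {τ : Set (A × Lab)}
    (h : Sem a K (s.subst σ) ι τ) : Sem a K (t.subst σ) ι τ := by
  classical
  -- every derivative of `s` has a value
  have hval : ∀ s', s' ∈ derivs s → ∃ ω, Val a K σ ι s' ω := by
    intro s' hs'
    have hr := reach_of_mem_derivs hs'
    have step : ∀ {u u' : Tm A V} {α : A ⊕ V}, (∃ ω, Val a K σ ι u ω) → OStep u α u' →
        ∃ ω, Val a K σ ι u' ω := by
      rintro u u' α ⟨ω, τu, hu, rfl⟩ hstep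
      cases α with
      | inl c =>
        obtain ⟨τ', g, h1, _, _⟩ := hu.fwd (step_subst_inl hσ hstep)
        exact ⟨_, τ', h1, rfl⟩
      | inr x =>
        obtain ⟨τ', τx, h1, _, _⟩ := ofwd_var hσ hu hstep
        exact ⟨_, τ', h1, rfl⟩
    induction hr with
    | single h1 =>
      obtain ⟨α, h1⟩ := h1
      exact step ⟨_, τ, h, rfl⟩ h1
    | tail h0 h1 ih =>
      obtain ⟨α, h1⟩ := h1
      refine step (ih ?_) h1
      have : ∀ {u w : Tm A V}, OReach u w → w ∈ derivs u := by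
        intro u w h
        induction h with
        | single h => obtain ⟨α, h⟩ := h; exact mem_derivs_of_step h
        | tail _ h ih => obtain ⟨α, h⟩ := h; exact mem_derivs_of_mem ih h
      exact this h0
  let Dstar : Tm A V → Prop := fun u => u = s ∨ u ∈ derivs s
  have hDstep : ∀ u, Dstar u → ∀ α u', OStep u α u' → u' ∈ derivs s := by
    rintro u (rfl | hu) α u' h
    · exact mem_derivs_of_step h
    · exact mem_derivs_of_mem hu h
  have hDval : ∀ u, Dstar u → ∃ ω, Val a K σ ι u ω := by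
    rintro u (rfl | hu)
    · exact ⟨_, τ, h, rfl⟩
    · exact hval u hu
  have huniq : ∀ u u' ω ω', Dstar u → Dstar u' → OEq u u' → Val a K σ ι u ω →
      Val a K σ ι u' ω' → ω = ω' := by
    intro u u' ω ω' hu hu' huu h1 h2
    exact val_eq hσ (derivs s) (fun w hw α w' h => mem_derivs_of_mem hw h) hlen
      (hDstep u hu) (hDstep u' hu') huu h1 h2
  -- transfer of values
  let v : Tm A V → Info A := fun t' =>
    if h : ∃ ω u, Dstar u ∧ OEq u t' ∧ Val a K σ ι u ω then h.choose else ι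
  have hveq : ∀ u t' ω, Dstar u → OEq u t' → Val a K σ ι u ω → v t' = ω := by
    intro u t' ω hu hut hω
    have hex : ∃ ω u, Dstar u ∧ OEq u t' ∧ Val a K σ ι u ω := ⟨ω, u, hu, hut, hω⟩
    have hv : v t' = hex.choose := dif_pos hex
    obtain ⟨u', h1, h2, h3⟩ := hex.choose_spec
    rw [hv]
    exact huniq _ _ _ _ h1 hu (h2.trans hut.symm) h3 hω
  -- local equations
  have hlocal : ∀ u t' τu, Dstar u → OEq u t' → Sem a K (u.subst σ) ι τu →
      ptau a K σ v t' = τu ∧ Adm a K σ v t' := by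
    intro u t' τu hu hut hτu
    refine ⟨?_, ?_, ?_⟩
    · ext ⟨c, g⟩
      simp only [ptau, Set.mem_ofPred_eq]
      constructor
      · rintro (⟨t'', h1, h2⟩ | ⟨y, t'', τy, h1, h2, h3⟩)
        · obtain ⟨u', h4, h5⟩ := hut.symm.fwd h1
          obtain ⟨τ', g', h6, h7, h8⟩ := hτu.fwd (step_subst_inl hσ h4)
          have := hveq u' t'' _ (Or.inr (hDstep u hu _ _ h4)) h5.symm ⟨τ', h6, rfl⟩
          rw [h2, h7] at this
          rw [info_injective a K this]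
          exact h8
        · obtain ⟨u', h4, h5⟩ := hut.symm.fwd h1
          obtain ⟨τ', τx, h6, h7, h8⟩ := ofwd_var hσ hτu h4
          have := hveq u' t'' _ (Or.inr (hDstep u hu _ _ h4)) h5.symm ⟨τ', h6, rfl⟩
          rw [this] at h2
          rw [h2.unique h7] at h3
          exact h8 h3
      · intro hg
        rcases obwd hσ hτu hg with ⟨u', τ', h1, h2, h3⟩ | ⟨x, u', τ', τx, h1, h2, h3, h4⟩
        · obtain ⟨t'', h5, h6⟩ := hut.fwd h1
          have := hveq u' t'' _ (Or.inr (hDstep u hu _ _ h1)) h6 ⟨τ', h2, rfl⟩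
          exact Or.inl ⟨t'', h5, by rw [this, h3]⟩
        · obtain ⟨t'', h5, h6⟩ := hut.fwd h1
          have := hveq u' t'' _ (Or.inr (hDstep u hu _ _ h1)) h6 ⟨τ', h2, rfl⟩
          exact Or.inr ⟨x, t'', τx, h5, by rw [this]; exact h3, h4⟩
    · intro c t'' h1
      obtain ⟨u', h4, h5⟩ := hut.symm.fwd h1
      obtain ⟨τ', g', h6, h7, h8⟩ := hτu.fwd (step_subst_inl hσ h4)
      have := hveq u' t'' _ (Or.inr (hDstep u hu _ _ h4)) h5.symm ⟨τ', h6, rfl⟩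
      exact ⟨g', by rw [this, h7]⟩
    · intro y t'' h1
      obtain ⟨u', h4, h5⟩ := hut.symm.fwd h1
      obtain ⟨τ', τx, h6, h7, h8⟩ := ofwd_var hσ hτu h4
      have := hveq u' t'' _ (Or.inr (hDstep u hu _ _ h4)) h5.symm ⟨τ', h6, rfl⟩
      exact ⟨τx, by rw [this]; exact h7⟩
  -- every derivative of `t` is matched by a derivative of `s`
  have hmatch : ∀ t' ∈ derivs t, ∃ u, Dstar u ∧ OEq u t' := by
    intro t' ht'
    have hr := reach_of_mem_derivs ht'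
    clear ht'
    induction hr with
    | single h1 =>
      obtain ⟨α, h1⟩ := h1
      obtain ⟨u', h4, h5⟩ := hst.symm.fwd h1
      exact ⟨u', Or.inr (hDstep s (Or.inl rfl) _ _ h4), h5.symm⟩
    | tail _ h1 ih =>
      obtain ⟨u, hu, hut⟩ := ih
      obtain ⟨α, h1⟩ := h1
      obtain ⟨u', h4, h5⟩ := hut.symm.fwd h1
      exact ⟨u', Or.inr (hDstep u hu _ _ h4), h5.symm⟩
  obtain ⟨e1, e2⟩ := hlocal s t τ (Or.inl rfl) hst h
  rw [← e1]
  refine sem_of_local hσ t ι v (fun t' ht' => ?_) e2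
  obtain ⟨u, hu, hut⟩ := hmatch t' ht'
  obtain ⟨ω, τu, hτu, rfl⟩ := hDval u hu
  obtain ⟨e3, e4⟩ := hlocal u t' τu hu hut hτu
  refine ⟨?_, e4⟩
  rw [hveq u t' _ hu hut ⟨τu, hτu, rfl⟩, e3]
  rw [show Down (u.subst σ) = ODown t' from propext ((down_subst hσ u).trans hut.down)]

end Pool.Agent.Lib.MP_32323c_lc
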