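import Pool.Agent.Lib.MP_32323c_lc.Conflict
import Mathlib.Data.List.Basic
import Mathlib.Logic.Relation

/-!
# Open terms: variables as actions
-/

namespace Pool.Agent.Lib.MP_32323c_lc

open Tm

variable {A V : Type}

/-- Termination of open terms, variables being non-terminating. -/
def ODown : Tm A V → Prop
  | .eps => True
  | .act _ => False
  | .var _ => False
  | .alt p q => ODown p ∨ ODown q
  | .seq p q => ODown p ∧ ODown q
  | .star _ q => ODown q

/-- Moves of open terms, variables being actions. -/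
def OStep : Tm A V → (A ⊕ V) → Tm A V → Prop
  | .eps, _, _ => False
  | .act b, α, t' => α = .inl b ∧ t' = .eps
  | .var x, α, t' => α = .inr x ∧ t' = .eps
  | .alt p q, α, t' => OStep p α t' ∨ OStep q α t'
  | .seq p q, α, t' => (∃ p', OStep p α p' ∧ t' = .seq p' q) ∨ (ODown p ∧ OStep q α t')
  | .star p q, α, t' => (∃ p', OStep p α p' ∧ t' = .seq p' (.star p q)) ∨ OStep q α t'

/-- The list of proper derivatives of an open term. -/
def derivs : Tm A V → List (Tm A V)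
  | .eps => []
  | .act _ => [.eps]
  | .var _ => [.eps]
  | .alt p q => derivs p ++ derivs q
  | .seq p q => (derivs p).map (fun p' => .seq p' q) ++ derivs q
  | .star p q => (derivs p).map (fun p' => .seq p' (.star p q)) ++ derivs q

theorem mem_derivs_of_step {t t' : Tm A V} {α : A ⊕ V} (h : OStep t α t') : t' ∈ derivs t := by
  induction t generalizing t' with
  | eps => exact h.elim
  | act b => simp only [OStep] at h; simp [derivs, h.2]
  | var x => simp only [OStep] at h; simp [derivs, h.2]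
  | alt p q ihp ihq =>
    simp only [OStep] at h
    simp only [derivs, List.mem_append]
    exact h.imp ihp ihq
  | seq p q ihp ihq =>
    simp only [OStep] at h
    simp only [derivs, List.mem_append, List.mem_map]
    rcases h with ⟨p', h, rfl⟩ | ⟨_, h⟩
    · exact Or.inl ⟨p', ihp h, rfl⟩
    · exact Or.inr (ihq h)
  | star p q ihp ihq =>
    simp only [OStep] at h
    simp only [derivs, List.mem_append, List.mem_map]
    rcases h with ⟨p', h, rfl⟩ | h
    · exact Or.inl ⟨p', ihp h, rfl⟩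
    · exact Or.inr (ihq h)

theorem mem_derivs_of_mem {t t' t'' : Tm A V} {α : A ⊕ V} (h : t' ∈ derivs t)
    (h' : OStep t' α t'') : t'' ∈ derivs t := by
  induction t generalizing t' t'' with
  | eps => simp [derivs] at h
  | act b => simp only [derivs, List.mem_singleton] at h; subst h; exact h'.elim
  | var x => simp only [derivs, List.mem_singleton] at h; subst h; exact h'.elim
  | alt p q ihp ihq =>
    simp only [derivs, List.mem_append] at h ⊢
    exact h.imp (fun h => ihp h h') (fun h => ihq h h')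
  | seq p q ihp ihq =>
    simp only [derivs, List.mem_append, List.mem_map] at h ⊢
    rcases h with ⟨p', h, rfl⟩ | h
    · simp only [OStep] at h'
      rcases h' with ⟨p'', h', rfl⟩ | ⟨_, h'⟩
      · exact Or.inl ⟨p'', ihp h h', rfl⟩
      · exact Or.inr (mem_derivs_of_step h')
    · exact Or.inr (ihq h h')
  | star p q ihp ihq =>
    simp only [derivs, List.mem_append, List.mem_map] at h ⊢
    rcases h with ⟨p', h, rfl⟩ | h
    · simp only [OStep] at h'
      rcases h' with ⟨p'', h', rfl⟩ | ⟨_, h' | h'⟩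
      · exact Or.inl ⟨p'', ihp h h', rfl⟩
      · obtain ⟨p'', h', rfl⟩ := h'
        exact Or.inl ⟨p'', mem_derivs_of_step h', rfl⟩
      · exact Or.inr (mem_derivs_of_step h')
    · exact Or.inr (ihq h h')

/-- Reachability by at least one move. -/
def OReach : Tm A V → Tm A V → Prop := Relation.TransGen (fun s t => ∃ α, OStep s α t)

theorem OReach.seq {p p' : Tm A V} (q : Tm A V) (h : OReach p p') :
    OReach (.seq p q) (.seq p' q) := by
  induction h with
  | single h =>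
    obtain ⟨α, h⟩ := h
    exact .single ⟨α, Or.inl ⟨_, h, rfl⟩⟩
  | tail _ h ih =>
    obtain ⟨α, h⟩ := h
    exact .tail ih ⟨α, Or.inl ⟨_, h, rfl⟩⟩

theorem OReach.head_change {s s' t : Tm A V} (h : OReach s t)
    (hs : ∀ α u, OStep s α u → OStep s' α u) : OReach s' t := by
  rw [OReach, Relation.TransGen.head'_iff] at h
  obtain ⟨u, ⟨α, h1⟩, h2⟩ := h
  exact Relation.TransGen.head' ⟨α, hs _ _ h1⟩ h2

/-- Every open term can reach termination. -/
theorem exists_reach_down (t : Tm A V) : ODown t ∨ ∃ t', OReach t t' ∧ ODown t' := by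
  induction t with
  | eps => exact Or.inl trivial
  | act b => exact Or.inr ⟨.eps, .single ⟨.inl b, rfl, rfl⟩, trivial⟩
  | var x => exact Or.inr ⟨.eps, .single ⟨.inr x, rfl, rfl⟩, trivial⟩
  | alt p q ihp _ =>
    rcases ihp with h | ⟨p', h1, h2⟩
    · exact Or.inl (Or.inl h)
    · exact Or.inr ⟨p', h1.head_change (fun α u h => Or.inl h), h2⟩
  | seq p q ihp ihq =>
    rcases ihp with h | ⟨p', h1, h2⟩
    · rcases ihq with h' | ⟨q', h1', h2'⟩
      · exact Or.inl ⟨h, h'⟩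
      · exact Or.inr ⟨q', h1'.head_change (fun α u h'' => Or.inr ⟨h, h''⟩), h2'⟩
    · rcases ihq with h' | ⟨q', h1', h2'⟩
      · exact Or.inr ⟨_, h1.seq q, h2, h'⟩
      · exact Or.inr ⟨q', (h1.seq q).trans
          (h1'.head_change (fun α u h'' => Or.inr ⟨h2, h''⟩)), h2'⟩
  | star p q _ ihq =>
    rcases ihq with h | ⟨q', h1, h2⟩
    · exact Or.inl h
    · exact Or.inr ⟨q', h1.head_change (fun α u h => Or.inr h), h2⟩

/-- All members of `derivs t` are reachable from `t`. -/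
theorem reach_of_mem_derivs {t t' : Tm A V} (h : t' ∈ derivs t) : OReach t t' := by
  induction t generalizing t' with
  | eps => simp [derivs] at h
  | act b =>
    simp only [derivs, List.mem_singleton] at h
    subst h
    exact .single ⟨.inl b, rfl, rfl⟩
  | var x =>
    simp only [derivs, List.mem_singleton] at h
    subst h
    exact .single ⟨.inr x, rfl, rfl⟩
  | alt p q ihp ihq =>
    simp only [derivs, List.mem_append] at h
    rcases h with h | h
    · exact (ihp h).head_change (fun α u h => Or.inl h)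
    · exact (ihq h).head_change (fun α u h => Or.inr h)
  | seq p q ihp ihq =>
    simp only [derivs, List.mem_append, List.mem_map] at h
    rcases h with ⟨p', h, rfl⟩ | h
    · exact (ihp h).seq q
    · rcases exists_reach_down p with hd | ⟨p', h1, h2⟩
      · exact (ihq h).head_change (fun α u h => Or.inr ⟨hd, h⟩)
      · exact (h1.seq q).trans ((ihq h).head_change (fun α u h => Or.inr ⟨h2, h⟩))
  | star p q ihp ihq =>
    simp only [derivs, List.mem_append, List.mem_map] at h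
    rcases h with ⟨p', h, rfl⟩ | h
    · exact ((ihp h).seq (.star p q)).head_change (fun α u hu => by
        rcases hu with ⟨p'', h1, rfl⟩ | ⟨_, h1⟩
        · exact Or.inl ⟨p'', h1, rfl⟩
        · exact h1)
    · exact (ihq h).head_change (fun α u h => Or.inr h)

/-! ### Open bisimilarity -/

/-- Bisimulations on open terms. -/
structure IsOBisim (R : Tm A V → Tm A V → Prop) : Prop where
  down : ∀ s t, R s t → (ODown s ↔ ODown t)
  fwd : ∀ s t, R s t → ∀ α s', OStep s α s' → ∃ t', OStep t α t' ∧ R s' t'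
  bwd : ∀ s t, R s t → ∀ α t', OStep t α t' → ∃ s', OStep s α s' ∧ R s' t'

/-- Open bisimilarity. -/
def OEq (s t : Tm A V) : Prop := ∃ R : Tm A V → Tm A V → Prop, IsOBisim R ∧ R s t

theorem OEq.down {s t : Tm A V} (h : OEq s t) : ODown s ↔ ODown t := by
  obtain ⟨R, hR, h⟩ := h
  exact hR.down _ _ h

theorem OEq.fwd {s t : Tm A V} (h : OEq s t) {α : A ⊕ V} {s' : Tm A V} (hs : OStep s α s') :
    ∃ t', OStep t α t' ∧ OEq s' t' := by
  obtain ⟨R, hR, h⟩ := h
  obtain ⟨t', h1, h2⟩ := hR.fwd _ _ h _ _ hs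
  exact ⟨t', h1, R, hR, h2⟩

theorem OEq.refl (s : Tm A V) : OEq s s :=
  ⟨Eq, ⟨fun _ _ h => by rw [h], fun _ _ h _ s' hs => ⟨s', h ▸ hs, rfl⟩,
    fun _ _ h _ s' hs => ⟨s', h ▸ hs, rfl⟩⟩, rfl⟩

theorem OEq.symm {s t : Tm A V} (h : OEq s t) : OEq t s := by
  obtain ⟨R, hR, h⟩ := h
  exact ⟨fun s t => R t s, ⟨fun _ _ h => (hR.down _ _ h).symm, fun _ _ h => hR.bwd _ _ h,
    fun _ _ h => hR.fwd _ _ h⟩, h⟩

theorem OEq.trans {s t u : Tm A V} (h : OEq s t) (h' : OEq t u) : OEq s u := by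
  refine ⟨fun s u => ∃ t, OEq s t ∧ OEq t u, ⟨?_, ?_, ?_⟩, t, h, h'⟩
  · rintro s u ⟨t, h1, h2⟩
    exact h1.down.trans h2.down
  · rintro s u ⟨t, h1, h2⟩ α s' hs
    obtain ⟨t', ht, h3⟩ := h1.fwd hs
    obtain ⟨u', hu, h4⟩ := h2.fwd ht
    exact ⟨u', hu, t', h3, h4⟩
  · rintro s u ⟨t, h1, h2⟩ α u' hu
    obtain ⟨t', ht, h3⟩ := h2.symm.fwd hu
    obtain ⟨s', hs, h4⟩ := h1.symm.fwd ht
    exact ⟨s', hs, t', h4.symm, h3.symm⟩

/-! ### Substitution -/

variable {σ : V → Closed A}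

theorem down_subst (hσ : ∀ x, ¬ Down (σ x)) (t : Tm A V) : Down (t.subst σ) ↔ ODown t := by
  induction t with
  | eps => simp [subst, ODown]
  | act b => simp [subst, ODown]
  | var x => simp only [subst, ODown, iff_false]; exact hσ x
  | alt p q ihp ihq => simp only [subst, ODown, down_alt, ihp, ihq]
  | seq p q ihp ihq => simp only [subst, ODown, down_seq, ihp, ihq]
  | star p q ihp ihq => simp only [subst, ODown, down_star, ihq]

theorem step_subst_inl (hσ : ∀ x, ¬ Down (σ x)) {t t' : Tm A V} {c : A}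
    (h : OStep t (.inl c) t') : Step (t.subst σ) c (t'.subst σ) := by
  induction t generalizing t' with
  | eps => exact h.elim
  | act b =>
    obtain ⟨h1, rfl⟩ := h
    obtain rfl := Sum.inl.inj h1
    exact .act _
  | var x => obtain ⟨h1, _⟩ := h; cases h1
  | alt p q ihp ihq =>
    rcases h with h | h
    · exact .altL (ihp h)
    · exact .altR (ihq h)
  | seq p q ihp ihq =>
    rcases h with ⟨p', h, rfl⟩ | ⟨hd, h⟩
    · exact .seqL (ihp h)
    · exact .seqR ((down_subst hσ p).mpr hd) (ihq h)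
  | star p q ihp ihq =>
    rcases h with ⟨p', h, rfl⟩ | h
    · exact .starL (ihp h)
    · exact .starR (ihq h)

theorem step_subst_inr (hσ : ∀ x, ¬ Down (σ x)) {t t' : Tm A V} {x : V}
    (h : OStep t (.inr x) t') {c : A} {ζ : Closed A} (hζ : Step (σ x) c ζ) :
    ∃ d, Step (t.subst σ) c d ∧ Bisim d (.seq ζ (t'.subst σ)) := by
  induction t generalizing t' with
  | eps => exact h.elim
  | act b => obtain ⟨h1, _⟩ := h; cases h1
  | var y =>
    obtain ⟨h1, rfl⟩ := h
    obtain rfl := Sum.inr.inj h1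
    exact ⟨ζ, hζ, (bisim_seq_eps ζ).symm⟩
  | alt p q ihp ihq =>
    rcases h with h | h
    · obtain ⟨d, h1, h2⟩ := ihp h
      exact ⟨d, .altL h1, h2⟩
    · obtain ⟨d, h1, h2⟩ := ihq h
      exact ⟨d, .altR h1, h2⟩
  | seq p q ihp ihq =>
    rcases h with ⟨p', h, rfl⟩ | ⟨hd, h⟩
    · obtain ⟨d, h1, h2⟩ := ihp h
      exact ⟨_, .seqL h1, (h2.seq_congr (.refl _)).trans (bisim_seq_assoc _ _ _)⟩
    · obtain ⟨d, h1, h2⟩ := ihq h
      exact ⟨d, .seqR ((down_subst hσ p).mpr hd) h1, h2⟩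
  | star p q ihp ihq =>
    rcases h with ⟨p', h, rfl⟩ | h
    · obtain ⟨d, h1, h2⟩ := ihp h
      exact ⟨_, .starL h1, (h2.seq_congr (.refl _)).trans (bisim_seq_assoc _ _ _)⟩
    · obtain ⟨d, h1, h2⟩ := ihq h
      exact ⟨d, .starR h1, h2⟩

theorem step_subst_inv (hσ : ∀ x, ¬ Down (σ x)) {t : Tm A V} {c : A} {d : Closed A}
    (h : Step (t.subst σ) c d) :
    (∃ t', OStep t (.inl c) t' ∧ d = t'.subst σ) ∨
    (∃ x t' ζ, OStep t (.inr x) t' ∧ Step (σ x) c ζ ∧ Bisim d (.seq ζ (t'.subst σ))) := by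
  induction t generalizing d with
  | eps => exact (step_eps.mp h).elim
  | act b =>
    obtain ⟨rfl, rfl⟩ := step_act.mp h
    exact Or.inl ⟨.eps, ⟨rfl, rfl⟩, rfl⟩
  | var y => exact Or.inr ⟨y, .eps, d, ⟨rfl, rfl⟩, h, (bisim_seq_eps d).symm⟩
  | alt p q ihp ihq =>
    rcases step_alt.mp h with h | h
    · rcases ihp h with ⟨t', h1, h2⟩ | ⟨x, t', ζ, h1, h2, h3⟩
      · exact Or.inl ⟨t', Or.inl h1, h2⟩
      · exact Or.inr ⟨x, t', ζ, Or.inl h1, h2, h3⟩
    · rcases ihq h with ⟨t', h1, h2⟩ | ⟨x, t', ζ, h1, h2, h3⟩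
      · exact Or.inl ⟨t', Or.inr h1, h2⟩
      · exact Or.inr ⟨x, t', ζ, Or.inr h1, h2, h3⟩
  | seq p q ihp ihq =>
    rcases step_seq.mp h with ⟨d', h', rfl⟩ | ⟨hd, h'⟩
    · rcases ihp h' with ⟨t', h1, rfl⟩ | ⟨x, t', ζ, h1, h2, h3⟩
      · exact Or.inl ⟨_, Or.inl ⟨t', h1, rfl⟩, rfl⟩
      · exact Or.inr ⟨x, _, ζ, Or.inl ⟨t', h1, rfl⟩, h2,
          (h3.seq_congr (.refl _)).trans (bisim_seq_assoc _ _ _)⟩
    · have hd' := (down_subst hσ p).mp hd
      rcases ihq h' with ⟨t', h1, h2⟩ | ⟨x, t', ζ, h1, h2, h3⟩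
      · exact Or.inl ⟨t', Or.inr ⟨hd', h1⟩, h2⟩
      · exact Or.inr ⟨x, t', ζ, Or.inr ⟨hd', h1⟩, h2, h3⟩
  | star p q ihp ihq =>
    rcases step_star.mp h with ⟨d', h', rfl⟩ | h'
    · rcases ihp h' with ⟨t', h1, rfl⟩ | ⟨x, t', ζ, h1, h2, h3⟩
      · exact Or.inl ⟨_, Or.inl ⟨t', h1, rfl⟩, rfl⟩
      · exact Or.inr ⟨x, _, ζ, Or.inl ⟨t', h1, rfl⟩, h2,
          (h3.seq_congr (.refl _)).trans (bisim_seq_assoc _ _ _)⟩
    · rcases ihq h' with ⟨t', h1, h2⟩ | ⟨x, t', ζ, h1, h2, h3⟩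
      · exact Or.inl ⟨t', Or.inr h1, h2⟩
      · exact Or.inr ⟨x, t', ζ, Or.inr h1, h2, h3⟩

/-- Open bisimilar terms have bisimilar closed instances (for non-terminating substitutions). -/
theorem OEq.bisim_subst (hσ : ∀ x, ¬ Down (σ x)) {s t : Tm A V} (h : OEq s t) :
    Bisim (s.subst σ) (t.subst σ) := by
  have key : ∀ p q : Closed A, (∃ ζ s t, OEq s t ∧ p = .seq ζ (s.subst σ) ∧
      q = .seq ζ (t.subst σ)) → Bisim p q := by
    intro p q hpq
    refine bisim_of_rel (fun p q => ∃ ζ s t, OEq s t ∧ p = .seq ζ (s.subst σ) ∧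
      q = .seq ζ (t.subst σ)) ?_ ?_ ?_ hpq
    · rintro _ _ ⟨ζ, s, t, h, rfl, rfl⟩
      rw [down_seq, down_seq, down_subst hσ, down_subst hσ, h.down]
    · rintro _ _ ⟨ζ, s, t, h, rfl, rfl⟩ c d hd
      rcases step_seq.mp hd with ⟨ζ', h1, rfl⟩ | ⟨h0, h1⟩
      · exact ⟨_, .seqL h1, _, _, .refl _, ⟨ζ', s, t, h, rfl, rfl⟩, .refl _⟩
      · rcases step_subst_inv hσ h1 with ⟨s', h2, rfl⟩ | ⟨x, s', ζ', h2, h3, h4⟩
        · obtain ⟨t', h5, h6⟩ := h.fwd h2
          exact ⟨_, .seqR h0 (step_subst_inl hσ h5), _, _, (bisim_eps_seq _).symm,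
            ⟨.eps, s', t', h6, rfl, rfl⟩, bisim_eps_seq _⟩
        · obtain ⟨t', h5, h6⟩ := h.fwd h2
          obtain ⟨d', h7, h8⟩ := step_subst_inr hσ h5 h3
          exact ⟨d', .seqR h0 h7, _, _, h4, ⟨ζ', s', t', h6, rfl, rfl⟩, h8.symm⟩
    · rintro _ _ ⟨ζ, s, t, h, rfl, rfl⟩ c d hd
      rcases step_seq.mp hd with ⟨ζ', h1, rfl⟩ | ⟨h0, h1⟩
      · exact ⟨_, .seqL h1, _, _, .refl _, ⟨ζ', s, t, h, rfl, rfl⟩, .refl _⟩
      · rcases step_subst_inv hσ h1 with ⟨t', h2, rfl⟩ | ⟨x, t', ζ', h2, h3, h4⟩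
        · obtain ⟨s', h5, h6⟩ := h.symm.fwd h2
          exact ⟨_, .seqR h0 (step_subst_inl hσ h5), _, _, (bisim_eps_seq _).symm,
            ⟨.eps, s', t', h6.symm, rfl, rfl⟩, bisim_eps_seq _⟩
        · obtain ⟨s', h5, h6⟩ := h.symm.fwd h2
          obtain ⟨d', h7, h8⟩ := step_subst_inr hσ h5 h3
          exact ⟨d', .seqR h0 h7, _, _, h8, ⟨ζ', s', t', h6.symm, rfl, rfl⟩, h4.symm⟩
  exact (bisim_eps_seq _).symm.trans
    ((key _ _ ⟨.eps, s, t, h, rfl, rfl⟩).trans (bisim_eps_seq _))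

end Pool.Agent.Lib.MP_32323c_lc
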