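import Pool.Agent.Lib.MP_32323c_lc.Basic
import Mathlib.Data.Set.Basic
import Mathlib.Data.Set.Insert

/-!
# The refined label semantics

Fix an action `a` and a number `K`.  A closed term acts on *informations*: an information consists
of a termination flag and a set of labelled transitions.  `Sem a K p ι τ` says that the moves of `p`
followed by a continuation with information `ι` can be consistently labelled, with result `τ`.
-/

namespace Pool.Agent.Lib.MP_32323c_lc

open Tm

variable {A : Type}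

/-- The labels. -/
inductive Lab : Type
  | X : Lab
  | Y : Lab
  | P : ℕ → Lab
  | Q : ℕ → Lab

/-- An information: a termination flag and a set of labelled transitions. -/
@[ext] structure Info (A : Type) where
  d : Prop
  τ : Set (A × Lab)

/-- The information attached to a label. -/
def info (a : A) (K : ℕ) : Lab → Info A
  | .X => ⟨True, {(a, .P K)}⟩
  | .Y => ⟨True, {(a, .P K), (a, .Q K)}⟩
  | .P 0 => ⟨False, {(a, .X), (a, .Y)}⟩
  | .P (n + 1) => ⟨False, {(a, .X), (a, .P n)}⟩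
  | .Q 0 => ⟨False, {(a, .X)}⟩
  | .Q (n + 1) => ⟨False, {(a, .X), (a, .Q n)}⟩

/-- The information of a process that terminates initially iff `D`, has the labelled transitions
`τ`, and is followed by a continuation with information `ι`. -/
def comb (D : Prop) (τ : Set (A × Lab)) (ι : Info A) : Info A :=
  ⟨D ∧ ι.d, τ ∪ {x | x ∈ ι.τ ∧ D}⟩

/-- The refined semantics. -/
def Sem (a : A) (K : ℕ) : Closed A → Info A → Set (A × Lab) → Prop
  | .eps, _, τ => τ = ∅
  | .act c, ι, τ => ∃ g, ι = info a K g ∧ τ = {(c, g)}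
  | .var x, _, _ => x.elim
  | .alt p q, ι, τ => ∃ τ₁ τ₂, Sem a K p ι τ₁ ∧ Sem a K q ι τ₂ ∧ τ = τ₁ ∪ τ₂
  | .seq p q, ι, τ => ∃ τ₁ τ₂, Sem a K q ι τ₂ ∧ Sem a K p (comb (Down q) τ₂ ι) τ₁ ∧
      τ = τ₁ ∪ {x | x ∈ τ₂ ∧ Down p}
  | .star p q, ι, τ => ∃ τ₁ τ₂, Sem a K q ι τ₂ ∧
      Sem a K p ⟨(comb (Down q) τ₂ ι).d, τ₁ ∪ (comb (Down q) τ₂ ι).τ⟩ τ₁ ∧ τ = τ₁ ∪ τ₂

@[simp] theorem comb_d (D : Prop) (τ : Set (A × Lab)) (ι : Info A) :
    (comb D τ ι).d = (D ∧ ι.d) := rfl

theorem mem_comb_τ {D : Prop} {τ : Set (A × Lab)} {ι : Info A} {x : A × Lab} :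
    x ∈ (comb D τ ι).τ ↔ x ∈ τ ∨ (x ∈ ι.τ ∧ D) := Iff.rfl

theorem comb_star (p q : Closed A) (τ₁ τ₂ : Set (A × Lab)) (ι : Info A) :
    comb (Down (.star p q)) (τ₁ ∪ τ₂) ι =
      ⟨(comb (Down q) τ₂ ι).d, τ₁ ∪ (comb (Down q) τ₂ ι).τ⟩ := by
  ext
  · simp
  · simp only [mem_comb_τ, Set.mem_union, down_star]
    tauto

theorem comb_seq (p q : Closed A) (τ₁ τ₂ : Set (A × Lab)) (ι : Info A) :
    comb (Down (.seq p q)) (τ₁ ∪ {x | x ∈ τ₂ ∧ Down p}) ι =
      comb (Down p) τ₁ (comb (Down q) τ₂ ι) := by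
  ext
  · simp only [comb_d, down_seq]
    tauto
  · simp only [mem_comb_τ, Set.mem_union, down_seq, Set.mem_ofPred_eq]
    tauto

theorem comb_eps (ι : Info A) : comb (Down (A := A) .eps) ∅ ι = ι := by
  ext
  · simp
  · simp [mem_comb_τ]

/-- The norm of a label. -/
def labNorm : Lab → ℕ
  | .X => 0
  | .Y => 0
  | .P _ => 1
  | .Q _ => 1

theorem labNorm_le (g : Lab) : labNorm g ≤ 1 := by cases g <;> simp [labNorm]

theorem info_d (a : A) (K : ℕ) (g : Lab) : (info a K g).d ↔ labNorm g = 0 := by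
  cases g with
  | X => simp [info, labNorm]
  | Y => simp [info, labNorm]
  | P n => cases n <;> simp [info, labNorm]
  | Q n => cases n <;> simp [info, labNorm]

theorem info_X_mem (a : A) (K : ℕ) (g : Lab) (h : labNorm g = 1) : (a, Lab.X) ∈ (info a K g).τ := by
  cases g with
  | X => simp [labNorm] at h
  | Y => simp [labNorm] at h
  | P n => cases n <;> simp [info]
  | Q n => cases n <;> simp [info]

theorem info_fst {a : A} {K : ℕ} {g : Lab} {x : A × Lab} (h : x ∈ (info a K g).τ) : x.1 = a := by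
  cases g with
  | X => simp only [info, Set.mem_singleton_iff] at h; rw [h]
  | Y => simp only [info, Set.mem_insert_iff, Set.mem_singleton_iff] at h
         rcases h with h | h <;> rw [h]
  | P n => cases n <;> simp only [info, Set.mem_insert_iff, Set.mem_singleton_iff] at h <;>
            rcases h with h | h <;> rw [h]
  | Q n => cases n with
    | zero => simp only [info, Set.mem_singleton_iff] at h; rw [h]
    | succ n => simp only [info, Set.mem_insert_iff, Set.mem_singleton_iff] at h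
                rcases h with h | h <;> rw [h]

/-- No label is among its own successors. -/
theorem not_self_mem {a : A} {K : ℕ} {g : Lab} {c : A} : (c, g) ∉ (info a K g).τ := by
  cases g with
  | X => simp [info]
  | Y => simp [info]
  | P n => cases n <;> simp [info]
  | Q n => cases n <;> simp [info]

theorem info_injective (a : A) (K : ℕ) : Function.Injective (info a K) := by
  intro g h hgh
  have hd : (info a K g).d = (info a K h).d := by rw [hgh]
  have hX : ∀ x, x ∈ (info a K g).τ ↔ x ∈ (info a K h).τ := fun x => by rw [hgh]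
  rcases g with _ | _ | (_ | n) | (_ | n) <;> rcases h with _ | _ | (_ | m) | (_ | m) <;>
    simp only [info, Set.mem_insert_iff, Set.mem_singleton_iff] at hd hX <;>
    first
    | rfl
    | (exfalso; simp at hd; done)
    | (exfalso; simpa using hX (a, .Q K))
    | (exfalso; simpa using hX (a, .P K))
    | (exfalso; simpa using hX (a, .Y))
    | (exfalso; simpa using hX (a, .P n))
    | (exfalso; simpa using hX (a, .P m))
    | (exfalso; simpa using hX (a, .Q n))
    | (exfalso; simpa using hX (a, .Q m))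
    | (have := hX (a, .P n); simp at this; rw [this])
    | (have := hX (a, .Q n); simp at this; rw [this])

open Classical in
/-- The norm of an information, capped at 2. -/
noncomputable def nrm (ι : Info A) : ℕ :=
  if ι.d then 0 else if ∃ x ∈ ι.τ, labNorm x.2 = 0 then 1 else 2

theorem nrm_le_two (ι : Info A) : nrm ι ≤ 2 := by
  unfold nrm; split_ifs <;> omega

theorem nrm_eq_zero {ι : Info A} : nrm ι = 0 ↔ ι.d := by
  unfold nrm; split_ifs <;> simp_all

theorem nrm_le_one_of_mem {ι : Info A} {x : A × Lab} (hx : x ∈ ι.τ) (h : labNorm x.2 = 0) :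
    nrm ι ≤ 1 := by
  unfold nrm
  split_ifs with h1 h2
  · omega
  · omega
  · exact absurd ⟨x, hx, h⟩ h2

theorem exists_mem_of_nrm {ι : Info A} (h : nrm ι = 1) : ∃ x ∈ ι.τ, labNorm x.2 = 0 := by
  unfold nrm at h
  split_ifs at h with h1 h2
  · exact h2
  · omega

theorem nrm_info (a : A) (K : ℕ) (g : Lab) : nrm (info a K g) = labNorm g := by
  have h := labNorm_le g
  rcases Nat.eq_zero_or_pos (labNorm g) with h0 | h0
  · rw [h0, nrm_eq_zero, info_d, h0]
  · have h1 : labNorm g = 1 := by omega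
    have h2 := nrm_le_one_of_mem (info_X_mem a K g h1) rfl
    have h3 : nrm (info a K g) ≠ 0 := by
      rw [Ne, nrm_eq_zero, info_d, h1]; simp
    omega

variable {a : A} {K : ℕ}

/-- Adequacy, forward direction. -/
theorem Sem.fwd {p : Closed A} {ι : Info A} {τ : Set (A × Lab)} (h : Sem a K p ι τ) {c : A}
    {p' : Closed A} (hs : Step p c p') :
    ∃ τ' g, Sem a K p' ι τ' ∧ comb (Down p') τ' ι = info a K g ∧ (c, g) ∈ τ := by
  induction p generalizing ι τ p' with
  | eps => exact (step_eps.mp hs).elim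
  | act b =>
    obtain ⟨rfl, rfl⟩ := step_act.mp hs
    obtain ⟨g, rfl, rfl⟩ := h
    exact ⟨∅, g, rfl, comb_eps _, rfl⟩
  | var x => exact x.elim
  | alt p q ihp ihq =>
    obtain ⟨τ₁, τ₂, h1, h2, rfl⟩ := h
    rcases step_alt.mp hs with hs | hs
    · obtain ⟨τ', g, h3, h4, h5⟩ := ihp h1 hs
      exact ⟨τ', g, h3, h4, Or.inl h5⟩
    · obtain ⟨τ', g, h3, h4, h5⟩ := ihq h2 hs
      exact ⟨τ', g, h3, h4, Or.inr h5⟩
  | seq p q ihp ihq =>
    obtain ⟨τ₁, τ₂, h1, h2, rfl⟩ := h
    rcases step_seq.mp hs with ⟨p', hs', rfl⟩ | ⟨hd, hs⟩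
    · obtain ⟨τ', g, h3, h4, h5⟩ := ihp h2 hs'
      exact ⟨_, g, ⟨τ', τ₂, h1, h3, rfl⟩, by rw [comb_seq, h4], Or.inl h5⟩
    · obtain ⟨τ', g, h3, h4, h5⟩ := ihq h1 hs
      exact ⟨τ', g, h3, h4, Or.inr ⟨h5, hd⟩⟩
  | star p q ihp ihq =>
    have hself := h
    obtain ⟨τ₁, τ₂, h1, h2, rfl⟩ := h
    rcases step_star.mp hs with ⟨p', hs', rfl⟩ | hs
    · obtain ⟨τ', g, h3, h4, h5⟩ := ihp h2 hs'
      rw [← comb_star p q] at h3 h4
      exact ⟨_, g, ⟨τ', τ₁ ∪ τ₂, hself, h3, rfl⟩, by rw [comb_seq, h4], Or.inl h5⟩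
    · obtain ⟨τ', g, h3, h4, h5⟩ := ihq h1 hs
      exact ⟨τ', g, h3, h4, Or.inr h5⟩

/-- Adequacy, backward direction. -/
theorem Sem.bwd {p : Closed A} {ι : Info A} {τ : Set (A × Lab)} (h : Sem a K p ι τ) {c : A}
    {g : Lab} (hg : (c, g) ∈ τ) :
    ∃ p' τ', Step p c p' ∧ Sem a K p' ι τ' ∧ comb (Down p') τ' ι = info a K g := by
  induction p generalizing ι τ with
  | eps => rw [show τ = ∅ from h] at hg; exact hg.elim
  | act b =>
    obtain ⟨g', rfl, rfl⟩ := h
    obtain ⟨rfl, rfl⟩ := Prod.mk.inj hg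
    exact ⟨.eps, ∅, .act _, rfl, comb_eps _⟩
  | var x => exact x.elim
  | alt p q ihp ihq =>
    obtain ⟨τ₁, τ₂, h1, h2, rfl⟩ := h
    rcases hg with hg | hg
    · obtain ⟨p', τ', h3, h4, h5⟩ := ihp h1 hg
      exact ⟨p', τ', .altL h3, h4, h5⟩
    · obtain ⟨p', τ', h3, h4, h5⟩ := ihq h2 hg
      exact ⟨p', τ', .altR h3, h4, h5⟩
  | seq p q ihp ihq =>
    obtain ⟨τ₁, τ₂, h1, h2, rfl⟩ := h
    rcases hg with hg | ⟨hg, hd⟩
    · obtain ⟨p', τ', h3, h4, h5⟩ := ihp h2 hg
      exact ⟨_, _, .seqL h3, ⟨τ', τ₂, h1, h4, rfl⟩, by rw [comb_seq, h5]⟩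
    · obtain ⟨p', τ', h3, h4, h5⟩ := ihq h1 hg
      exact ⟨p', τ', .seqR hd h3, h4, h5⟩
  | star p q ihp ihq =>
    have hself := h
    obtain ⟨τ₁, τ₂, h1, h2, rfl⟩ := h
    rcases hg with hg | hg
    · obtain ⟨p', τ', h3, h4, h5⟩ := ihp h2 hg
      rw [← comb_star p q] at h4 h5
      exact ⟨_, _, .starL h3, ⟨τ', τ₁ ∪ τ₂, hself, h4, rfl⟩, by rw [comb_seq, h5]⟩
    · obtain ⟨p', τ', h3, h4, h5⟩ := ihq h1 hg
      exact ⟨p', τ', .starR h3, h4, h5⟩

/-- The norm of the continuation bounds the norms of the labels produced. -/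
theorem nrm_le_comb_of {D : Prop} {τ : Set (A × Lab)} {ι : Info A}
    (h : ∀ x ∈ τ, nrm ι ≤ labNorm x.2) : nrm ι ≤ nrm (comb D τ ι) := by
  by_cases h0 : (comb D τ ι).d
  · rw [comb_d] at h0
    rw [nrm_eq_zero.mpr h0.2]
    omega
  · have h2 := nrm_le_two ι
    have h3 : nrm (comb D τ ι) ≠ 0 := by rwa [Ne, nrm_eq_zero]
    have h4 := nrm_le_two (comb D τ ι)
    by_cases h1 : nrm (comb D τ ι) = 1
    · obtain ⟨x, hx, hx0⟩ := exists_mem_of_nrm h1
      rcases mem_comb_τ.mp hx with hx | ⟨hx, _⟩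
      · have := h x hx
        omega
      · have := nrm_le_one_of_mem hx hx0
        omega
    · omega

theorem Sem.nrm_le {p : Closed A} {ι : Info A} {τ : Set (A × Lab)} (h : Sem a K p ι τ) :
    ∀ x ∈ τ, nrm ι ≤ labNorm x.2 := by
  induction p generalizing ι τ with
  | eps => rw [show τ = ∅ from h]; exact fun x hx => hx.elim
  | act b =>
    obtain ⟨g', rfl, rfl⟩ := h
    rintro x rfl
    rw [nrm_info]
  | var x => exact x.elim
  | alt p q ihp ihq =>
    obtain ⟨τ₁, τ₂, h1, h2, rfl⟩ := h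
    rintro x (hx | hx)
    · exact ihp h1 x hx
    · exact ihq h2 x hx
  | seq p q ihp ihq =>
    obtain ⟨τ₁, τ₂, h1, h2, rfl⟩ := h
    rintro x (hx | ⟨hx, -⟩)
    · exact (nrm_le_comb_of (ihq h1)).trans (ihp h2 x hx)
    · exact ihq h1 x hx
  | star p q ihp ihq =>
    obtain ⟨τ₁, τ₂, h1, h2, rfl⟩ := h
    have hp := ihp h2
    have hq := ihq h1
    rintro x (hx | hx)
    · refine le_trans ?_ (hp x hx)
      set ω₂ := comb (Down q) τ₂ ι with hω₂
      have hle : nrm ι ≤ nrm ω₂ := nrm_le_comb_of hq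
      by_cases h0 : ω₂.d
      · rw [nrm_eq_zero.mpr h0] at hle
        omega
      · have h3 : nrm (⟨ω₂.d, τ₁ ∪ ω₂.τ⟩ : Info A) ≠ 0 := by rwa [Ne, nrm_eq_zero]
        have h4 := nrm_le_two (⟨ω₂.d, τ₁ ∪ ω₂.τ⟩ : Info A)
        have h5 := nrm_le_two ω₂
        by_cases h6 : nrm (⟨ω₂.d, τ₁ ∪ ω₂.τ⟩ : Info A) = 1
        · obtain ⟨y, hy, hy0⟩ := exists_mem_of_nrm h6
          rcases hy with hy | hy
          · have := hp y hy
            omega
          · have := nrm_le_one_of_mem hy hy0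
            omega
        · omega
    · exact hq x hx

/-- The norm of a combined information. -/
theorem Sem.nrm_comb {p : Closed A} {ι : Info A} {τ : Set (A × Lab)} (h : Sem a K p ι τ) :
    nrm (comb (Down p) τ ι) = min 2 (norm p + nrm ι) := by
  induction p generalizing ι τ with
  | eps =>
    rw [show τ = ∅ from h, comb_eps]
    have := nrm_le_two ι
    simp only [norm]
    omega
  | act b =>
    obtain ⟨g', rfl, rfl⟩ := h
    rw [nrm_info]
    have h0 : ¬ (comb (Down (.act b)) {(b, g')} (info a K g')).d := by simp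
    have h1 : nrm (comb (Down (.act b)) {(b, g')} (info a K g')) ≠ 0 := by
      rwa [Ne, nrm_eq_zero]
    have h2 := nrm_le_two (comb (Down (.act b)) {(b, g')} (info a K g'))
    have h3 := labNorm_le g'
    simp only [norm]
    by_cases h4 : labNorm g' = 0
    · have := nrm_le_one_of_mem (ι := comb (Down (.act b)) {(b, g')} (info a K g'))
        (x := (b, g')) (Or.inl rfl) h4
      omega
    · by_cases h5 : nrm (comb (Down (.act b)) {(b, g')} (info a K g')) = 1
      · obtain ⟨x, hx, hx0⟩ := exists_mem_of_nrm h5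
        rcases mem_comb_τ.mp hx with hx | ⟨_, hd⟩
        · rw [show x = (b, g') from hx] at hx0
          exact absurd hx0 h4
        · simp at hd
      · omega
  | var x => exact x.elim
  | alt p q ihp ihq =>
    obtain ⟨τ₁, τ₂, h1, h2, rfl⟩ := h
    have hp := ihp h1
    have hq := ihq h2
    have hle := nrm_le_two (comb (Down (.alt p q)) (τ₁ ∪ τ₂) ι)
    have hlep := nrm_le_two (comb (Down p) τ₁ ι)
    have hleq := nrm_le_two (comb (Down q) τ₂ ι)
    have key : nrm (comb (Down (.alt p q)) (τ₁ ∪ τ₂) ι) =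
        min (nrm (comb (Down p) τ₁ ι)) (nrm (comb (Down q) τ₂ ι)) := by
      have e0 : nrm (comb (Down (.alt p q)) (τ₁ ∪ τ₂) ι) = 0 ↔
          nrm (comb (Down p) τ₁ ι) = 0 ∨ nrm (comb (Down q) τ₂ ι) = 0 := by
        simp only [nrm_eq_zero, comb_d, down_alt]
        tauto
      have e1 : nrm (comb (Down (.alt p q)) (τ₁ ∪ τ₂) ι) ≤ 1 ↔
          nrm (comb (Down p) τ₁ ι) ≤ 1 ∨ nrm (comb (Down q) τ₂ ι) ≤ 1 := by
        constructor
        · intro h
          by_cases h0 : nrm (comb (Down (.alt p q)) (τ₁ ∪ τ₂) ι) = 0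
          · rcases e0.mp h0 with h | h
            · left; omega
            · right; omega
          · obtain ⟨x, hx, hx0⟩ := exists_mem_of_nrm (ι := comb (Down (.alt p q)) (τ₁ ∪ τ₂) ι)
              (by omega)
            simp only [mem_comb_τ, Set.mem_union, down_alt] at hx
            by_cases hxp : x ∈ (comb (Down p) τ₁ ι).τ
            · exact Or.inl (nrm_le_one_of_mem hxp hx0)
            · right
              refine nrm_le_one_of_mem (x := x) ?_ hx0
              rw [mem_comb_τ] at hxp ⊢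
              tauto
        · rintro (h | h)
          · by_cases h0 : nrm (comb (Down p) τ₁ ι) = 0
            · rw [e0.mpr (Or.inl h0)]; omega
            · obtain ⟨x, hx, hx0⟩ := exists_mem_of_nrm (ι := comb (Down p) τ₁ ι) (by omega)
              refine nrm_le_one_of_mem (x := x) ?_ hx0
              simp only [mem_comb_τ, Set.mem_union, down_alt] at hx ⊢
              tauto
          · by_cases h0 : nrm (comb (Down q) τ₂ ι) = 0
            · rw [e0.mpr (Or.inr h0)]; omega
            · obtain ⟨x, hx, hx0⟩ := exists_mem_of_nrm (ι := comb (Down q) τ₂ ι) (by omega)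
              refine nrm_le_one_of_mem (x := x) ?_ hx0
              simp only [mem_comb_τ, Set.mem_union, down_alt] at hx ⊢
              tauto
      omega
    simp only [norm]
    omega
  | seq p q ihp ihq =>
    obtain ⟨τ₁, τ₂, h1, h2, rfl⟩ := h
    have hp := ihp h2
    have hq := ihq h1
    rw [comb_seq, hp, hq]
    simp only [norm]
    omega
  | star p q ihp ihq =>
    obtain ⟨τ₁, τ₂, h1, h2, rfl⟩ := h
    have hq := ihq h1
    have hle := h2.nrm_le
    rw [comb_star]
    simp only [norm]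
    rw [← hq]
    set ω₂ := comb (Down q) τ₂ ι with hω₂
    set ω : Info A := ⟨ω₂.d, τ₁ ∪ ω₂.τ⟩ with hω
    have e0 : nrm ω = 0 ↔ nrm ω₂ = 0 := by rw [nrm_eq_zero, nrm_eq_zero]
    have e1 : nrm ω ≤ 1 ↔ nrm ω₂ ≤ 1 := by
      constructor
      · intro h
        by_cases h0 : nrm ω = 0
        · have := e0.mp h0; omega
        · obtain ⟨x, hx, hx0⟩ := exists_mem_of_nrm (ι := ω) (by omega)
          rcases hx with hx | hx
          · have := hle x hx
            omega
          · exact nrm_le_one_of_mem hx hx0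
      · intro h
        by_cases h0 : nrm ω₂ = 0
        · have := e0.mpr h0; omega
        · obtain ⟨x, hx, hx0⟩ := exists_mem_of_nrm (ι := ω₂) (by omega)
          exact nrm_le_one_of_mem (ι := ω) (x := x) (Or.inr hx) hx0
    have := nrm_le_two ω
    have := nrm_le_two ω₂
    omega

theorem Sem.norm_add {p : Closed A} {ι : Info A} {τ : Set (A × Lab)} {g : Lab}
    (h : Sem a K p ι τ) (hg : comb (Down p) τ ι = info a K g) : norm p + nrm ι = labNorm g := by
  have h1 := h.nrm_comb
  rw [hg, nrm_info] at h1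
  have := labNorm_le g
  omega

end Pool.Agent.Lib.MP_32323c_lc
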