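import Pool.Agent.Lib.MP_32323c_lc.Sem

/-!
# Uniqueness of the refined semantics and comparison of labels
-/

namespace Pool.Agent.Lib.MP_32323c_lc

open Tm

variable {A : Type} {a : A} {K : ℕ}

/-- A closed term without moves. -/
def Triv (p : Closed A) : Prop := ∀ c p', ¬ Step p c p'

theorem Triv.norm_eq {p : Closed A} (h : Triv p) : norm p = 0 := by
  by_contra h0
  obtain ⟨c, p', h1, _⟩ := exists_step_norm p (n := norm p - 1) (by omega)
  exact h c p' h1

theorem Triv.down {p : Closed A} (h : Triv p) : Down p := (norm_eq_zero_iff p).mp h.norm_eq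

/-- Key lemma: a star whose body has a move has the information of the label `X`. -/
theorem Sem.star_info {p : Closed A} {ω : Info A} {τ₁ : Set (A × Lab)} (h : Sem a K p ω τ₁)
    (hsub : τ₁ ⊆ ω.τ) {c : A} {p' : Closed A} (hs : Step p c p') : ω = info a K .X := by
  obtain ⟨τ', g', h1, h2, h3⟩ := h.fwd hs
  have hn := h1.norm_add h2
  have hmem : (c, g') ∈ ω.τ := hsub h3
  have hnd : ¬ Down p' := by
    intro hd
    have : (c, g') ∈ (comb (Down p') τ' ω).τ := Or.inr ⟨hmem, hd⟩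
    rw [h2] at this
    exact not_self_mem this
  have h0 : norm p' ≠ 0 := by rwa [Ne, norm_eq_zero_iff]
  have hle := labNorm_le g'
  have hω : nrm ω = 0 := by omega
  have hg1 : labNorm g' = 1 := by omega
  have hX : (a, Lab.X) ∈ (comb (Down p') τ' ω).τ := by
    rw [h2]; exact info_X_mem a K g' hg1
  rcases mem_comb_τ.mp hX with hX | ⟨_, hd⟩
  · obtain ⟨p'', τ'', h4, h5, h6⟩ := h1.bwd hX
    have hn2 := h5.norm_add h6
    have hd : Down p'' := by
      rw [← norm_eq_zero_iff]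
      simp only [labNorm] at hn2
      omega
    have hsub2 : ∀ x ∈ ω.τ, x = (a, Lab.P K) := by
      intro x hx
      have : x ∈ (comb (Down p'') τ'' ω).τ := Or.inr ⟨hx, hd⟩
      rw [h6] at this
      exact this
    ext x
    · simp only [info]
      exact ⟨fun _ => trivial, fun _ => nrm_eq_zero.mp hω⟩
    · simp only [info, Set.mem_singleton_iff]
      constructor
      · exact hsub2 x
      · rintro rfl
        rw [← hsub2 _ hmem]
        exact hmem
  · exact absurd hd hnd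

theorem Sem.eq_empty_of_triv {p : Closed A} {ι : Info A} {τ : Set (A × Lab)}
    (h : Sem a K p ι τ) (ht : Triv p) : τ = ∅ := by
  ext ⟨c, g⟩
  simp only [Set.mem_empty_iff_false, iff_false]
  intro hg
  obtain ⟨p', _, h1, _⟩ := h.bwd hg
  exact ht _ _ h1

theorem Sem.unique {p : Closed A} {ι : Info A} {τ τ' : Set (A × Lab)}
    (h : Sem a K p ι τ) (h' : Sem a K p ι τ') : τ = τ' := by
  induction p generalizing ι τ τ' with
  | eps => rw [show τ = ∅ from h, show τ' = ∅ from h']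
  | act b =>
    obtain ⟨g, h1, rfl⟩ := h
    obtain ⟨g', h1', rfl⟩ := h'
    rw [info_injective a K (h1.symm.trans h1')]
  | var x => exact x.elim
  | alt p q ihp ihq =>
    obtain ⟨τ₁, τ₂, h1, h2, rfl⟩ := h
    obtain ⟨τ₁', τ₂', h1', h2', rfl⟩ := h'
    rw [ihp h1 h1', ihq h2 h2']
  | seq p q ihp ihq =>
    obtain ⟨τ₁, τ₂, h1, h2, rfl⟩ := h
    obtain ⟨τ₁', τ₂', h1', h2', rfl⟩ := h'
    obtain rfl := ihq h1 h1'
    rw [ihp h2 h2']
  | star p q ihp ihq =>
    obtain ⟨τ₁, τ₂, h1, h2, rfl⟩ := h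
    obtain ⟨τ₁', τ₂', h1', h2', rfl⟩ := h'
    obtain rfl := ihq h1 h1'
    by_cases ht : Triv p
    · rw [h2.eq_empty_of_triv ht, h2'.eq_empty_of_triv ht]
    · unfold Triv at ht
      push Not at ht
      obtain ⟨c, p', hs⟩ := ht
      have e1 := h2.star_info (fun x hx => Or.inl hx) hs
      have e2 := h2'.star_info (fun x hx => Or.inl hx) hs
      rw [e1] at h2
      rw [e2] at h2'
      rw [ihp h2 h2']

theorem sem_of_triv {p : Closed A} (ht : Triv p) (ι : Info A) : Sem a K p ι ∅ := by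
  induction p generalizing ι with
  | eps => rfl
  | act b => exact (ht _ _ (.act b)).elim
  | var x => exact x.elim
  | alt p q ihp ihq =>
    exact ⟨∅, ∅, ihp (fun c p' h => ht _ _ (.altL h)) ι, ihq (fun c p' h => ht _ _ (.altR h)) ι,
      by simp⟩
  | seq p q ihp ihq =>
    have hp : Triv p := fun c p' h => ht _ _ (.seqL h)
    exact ⟨∅, ∅, ihq (fun c p' h => ht _ _ (.seqR hp.down h)) ι, ihp hp _, by simp⟩
  | star p q ihp ihq =>
    exact ⟨∅, ∅, ihq (fun c p' h => ht _ _ (.starR h)) ι, ihp (fun c p' h => ht _ _ (.starL h)) _,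
      by simp⟩

/-! ### The refined equivalence is a congruence -/

/-- Equality in the refined semantics. -/
def SEq (a : A) (K : ℕ) (p q : Closed A) : Prop :=
  (Down p ↔ Down q) ∧ ∀ ι τ, Sem a K p ι τ ↔ Sem a K q ι τ

theorem SEq.refl (p : Closed A) : SEq a K p p := ⟨Iff.rfl, fun _ _ => Iff.rfl⟩

theorem SEq.symm {p q : Closed A} (h : SEq a K p q) : SEq a K q p :=
  ⟨h.1.symm, fun ι τ => (h.2 ι τ).symm⟩

theorem SEq.trans {p q r : Closed A} (h : SEq a K p q) (h' : SEq a K q r) : SEq a K p r :=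
  ⟨h.1.trans h'.1, fun ι τ => (h.2 ι τ).trans (h'.2 ι τ)⟩

theorem SEq.alt {p p' q q' : Closed A} (hp : SEq a K p p') (hq : SEq a K q q') :
    SEq a K (.alt p q) (.alt p' q') := by
  refine ⟨by rw [down_alt, down_alt, hp.1, hq.1], fun ι τ => ?_⟩
  simp only [Sem, hp.2, hq.2]

theorem SEq.seq {p p' q q' : Closed A} (hp : SEq a K p p') (hq : SEq a K q q') :
    SEq a K (.seq p q) (.seq p' q') := by
  refine ⟨by rw [down_seq, down_seq, hp.1, hq.1], fun ι τ => ?_⟩
  simp only [Sem, hp.2, hq.2, hp.1, hq.1]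

theorem SEq.star {p p' q q' : Closed A} (hp : SEq a K p p') (hq : SEq a K q q') :
    SEq a K (.star p q) (.star p' q') := by
  refine ⟨by rw [down_star, down_star, hq.1], fun ι τ => ?_⟩
  simp only [Sem, hp.2, hq.2, hq.1]

theorem seq_subst {V : Type} {σ σ' : V → Closed A} (h : ∀ x, SEq a K (σ x) (σ' x)) (t : Tm A V) :
    SEq a K (t.subst σ) (t.subst σ') := by
  induction t with
  | eps => exact .refl _
  | act b => exact .refl _
  | var x => exact h x
  | alt p q ihp ihq => exact ihp.alt ihq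
  | seq p q ihp ihq => exact ihp.seq ihq
  | star p q ihp ihq => exact ihp.star ihq

/-! ### Non-terminating parts -/

/-- For every closed term with a move there is a non-terminating one with the same moves, in the
refined semantics. -/
theorem exists_nonterminating (p : Closed A) (h : ¬ Triv p) :
    ∃ p' : Closed A, ¬ Down p' ∧ ∀ ι τ, Sem a K p ι τ ↔ Sem a K p' ι τ := by
  induction p with
  | eps => exact (h (fun c p' hs => step_eps.mp hs)).elim
  | act b => exact ⟨.act b, by simp, fun _ _ => Iff.rfl⟩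
  | var x => exact x.elim
  | alt p q ihp ihq =>
    by_cases hp : Triv p
    · have hq : ¬ Triv q := fun hq => h (fun c r hs => by
        rcases step_alt.mp hs with hs | hs
        · exact hp _ _ hs
        · exact hq _ _ hs)
      obtain ⟨q', h1, h2⟩ := ihq hq
      refine ⟨q', h1, fun ι τ => ?_⟩
      rw [← h2]
      constructor
      · rintro ⟨τ₁, τ₂, h3, h4, rfl⟩
        rw [h3.eq_empty_of_triv hp, Set.empty_union]
        exact h4
      · intro h3
        exact ⟨∅, τ, sem_of_triv hp ι, h3, by simp⟩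
    · obtain ⟨p', h1, h2⟩ := ihp hp
      by_cases hq : Triv q
      · refine ⟨p', h1, fun ι τ => ?_⟩
        rw [← h2]
        constructor
        · rintro ⟨τ₁, τ₂, h3, h4, rfl⟩
          rw [h4.eq_empty_of_triv hq, Set.union_empty]
          exact h3
        · intro h3
          exact ⟨τ, ∅, h3, sem_of_triv hq ι, by simp⟩
      · obtain ⟨q', h3, h4⟩ := ihq hq
        refine ⟨.alt p' q', by simp [h1, h3], fun ι τ => ?_⟩
        simp only [Sem, h2, h4]
  | seq p q ihp ihq =>
    by_cases hp : Triv p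
    · have hq : ¬ Triv q := fun hq => h (fun c r hs => by
        rcases step_seq.mp hs with ⟨_, hs, _⟩ | ⟨_, hs⟩
        · exact hp _ _ hs
        · exact hq _ _ hs)
      obtain ⟨q', h1, h2⟩ := ihq hq
      refine ⟨q', h1, fun ι τ => ?_⟩
      rw [← h2]
      constructor
      · rintro ⟨τ₁, τ₂, h3, h4, rfl⟩
        rw [h4.eq_empty_of_triv hp]
        have : (∅ ∪ {x | x ∈ τ₂ ∧ Down p} : Set (A × Lab)) = τ₂ := by
          ext x; simp [hp.down]
        rw [this]
        exact h3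
      · intro h3
        refine ⟨∅, τ, h3, sem_of_triv hp _, ?_⟩
        ext x; simp [hp.down]
    · obtain ⟨p', h1, h2⟩ := ihp hp
      by_cases hd : Down p
      · by_cases hq : Triv q
        · refine ⟨.seq p' q, by simp [h1], fun ι τ => ?_⟩
          constructor
          · rintro ⟨τ₁, τ₂, h3, h4, rfl⟩
            refine ⟨τ₁, τ₂, h3, (h2 _ _).mp h4, ?_⟩
            rw [h3.eq_empty_of_triv hq]
            simp
          · rintro ⟨τ₁, τ₂, h3, h4, rfl⟩
            refine ⟨τ₁, τ₂, h3, (h2 _ _).mpr h4, ?_⟩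
            rw [h3.eq_empty_of_triv hq]
            simp
        · obtain ⟨q', h3, h4⟩ := ihq hq
          refine ⟨.alt (.seq p' q) q', by simp [h1, h3], fun ι τ => ?_⟩
          constructor
          · rintro ⟨τ₁, τ₂, h5, h6, rfl⟩
            refine ⟨τ₁, τ₂, ⟨τ₁, τ₂, h5, (h2 _ _).mp h6, ?_⟩, (h4 _ _).mp h5, ?_⟩
            · ext x; simp [h1]
            · ext x; simp [hd]
          · rintro ⟨τ₁, τ₂, ⟨τ₃, τ₄, h5, h6, rfl⟩, h7, rfl⟩
            have e := h5.unique ((h4 _ _).mpr h7)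
            subst e
            refine ⟨τ₃, τ₄, h5, (h2 _ _).mpr h6, ?_⟩
            ext x; simp [h1, hd]
      · refine ⟨.seq p' q, by simp [h1], fun ι τ => ?_⟩
        simp only [Sem, h2, h1, hd]
  | star p q ihp ihq =>
    by_cases hp : Triv p
    · have hq : ¬ Triv q := fun hq => h (fun c r hs => by
        rcases step_star.mp hs with ⟨_, hs, _⟩ | hs
        · exact hp _ _ hs
        · exact hq _ _ hs)
      obtain ⟨q', h1, h2⟩ := ihq hq
      refine ⟨q', h1, fun ι τ => ?_⟩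
      rw [← h2]
      constructor
      · rintro ⟨τ₁, τ₂, h3, h4, rfl⟩
        rw [h4.eq_empty_of_triv hp, Set.empty_union]
        exact h3
      · intro h3
        exact ⟨∅, τ, h3, sem_of_triv hp _, by simp⟩
    · obtain ⟨p', h1, h2⟩ := ihp hp
      by_cases hq : Triv q
      · refine ⟨.seq p' (.star p q), by simp [h1], fun ι τ => ?_⟩
        constructor
        · intro hself
          have hself' := hself
          obtain ⟨τ₁, τ₂, h3, h4, rfl⟩ := hself
          rw [← comb_star p q] at h4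
          refine ⟨τ₁, τ₁ ∪ τ₂, hself', (h2 _ _).mp h4, ?_⟩
          rw [h3.eq_empty_of_triv hq]
          ext x; simp [h1]
        · rintro ⟨τa, τb, hself, h4, rfl⟩
          have hself' := hself
          obtain ⟨τ₁, τ₂, h5, h6, rfl⟩ := hself
          have h6' := h6
          rw [← comb_star p q] at h6'
          have e := h6'.unique ((h2 _ _).mpr h4)
          subst e
          have e2 := h5.eq_empty_of_triv hq
          subst e2
          have : (τ₁ ∪ {x | x ∈ τ₁ ∪ ∅ ∧ Down p'} : Set (A × Lab)) = τ₁ ∪ ∅ := by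
            ext x; simp [h1]
          rw [this]
          exact hself'
      · obtain ⟨q', h3, h4⟩ := ihq hq
        refine ⟨.alt (.seq p' (.star p q)) q', by simp [h1, h3], fun ι τ => ?_⟩
        constructor
        · intro hself
          have hself' := hself
          obtain ⟨τ₁, τ₂, h5, h6, rfl⟩ := hself
          rw [← comb_star p q] at h6
          refine ⟨τ₁, τ₂, ⟨τ₁, τ₁ ∪ τ₂, hself', (h2 _ _).mp h6, ?_⟩, (h4 _ _).mp h5, rfl⟩
          ext x; simp [h1]
        · rintro ⟨τa, τb, ⟨τc, τd, hself, h7, rfl⟩, h8, rfl⟩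
          have hself' := hself
          obtain ⟨τ₁, τ₂, h5, h6, rfl⟩ := hself
          have h6' := h6
          rw [← comb_star p q] at h6'
          have e := h6'.unique ((h2 _ _).mpr h7)
          subst e
          have e2 := h5.unique ((h4 _ _).mpr h8)
          subst e2
          have : (τ₁ ∪ {x | x ∈ τ₁ ∪ τ₂ ∧ Down p'} ∪ τ₂ : Set (A × Lab)) = τ₁ ∪ τ₂ := by
            ext x; simp [h1]
          rw [this]
          exact hself'

/-! ### Comparison of labels -/

/-- Forget the difference between the labels of type `P` and those of type `Q`. -/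
def pi : Lab → Lab
  | .X => .X
  | .Y => .X
  | .P n => .Q n
  | .Q n => .Q n

/-- Labelled transition sets that are equal up to `pi`. -/
def PiEq (τ τ' : Set (A × Lab)) : Prop :=
  (∀ c g, (c, g) ∈ τ → ∃ g', (c, g') ∈ τ' ∧ pi g' = pi g) ∧
  (∀ c g, (c, g) ∈ τ' → ∃ g', (c, g') ∈ τ ∧ pi g' = pi g)

theorem PiEq.refl (τ : Set (A × Lab)) : PiEq τ τ :=
  ⟨fun _ g h => ⟨g, h, rfl⟩, fun _ g h => ⟨g, h, rfl⟩⟩

theorem PiEq.symm {τ τ' : Set (A × Lab)} (h : PiEq τ τ') : PiEq τ' τ := ⟨h.2, h.1⟩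

/-- Informations that are equal up to `pi`. -/
def IPiEq (ι ι' : Info A) : Prop := (ι.d ↔ ι'.d) ∧ PiEq ι.τ ι'.τ

theorem IPiEq.symm {ι ι' : Info A} (h : IPiEq ι ι') : IPiEq ι' ι := ⟨h.1.symm, h.2.symm⟩

theorem IPiEq.nrm_eq {ι ι' : Info A} (h : IPiEq ι ι') : nrm ι = nrm ι' := by
  have hlab : ∀ g g' : Lab, pi g' = pi g → labNorm g' = labNorm g := by
    intro g g' h
    cases g <;> cases g' <;> simp_all [pi, labNorm]
  have key : ∀ ι ι' : Info A, IPiEq ι ι' → nrm ι' ≤ nrm ι := by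
    intro ι ι' h
    have h2 := nrm_le_two ι
    have h2' := nrm_le_two ι'
    by_cases h0 : nrm ι = 0
    · have := nrm_eq_zero.mpr (h.1.mp (nrm_eq_zero.mp h0))
      omega
    · by_cases h1 : nrm ι = 1
      · obtain ⟨⟨c, g⟩, hx, hx0⟩ := exists_mem_of_nrm h1
        obtain ⟨g', h3, h4⟩ := h.2.1 c g hx
        have := nrm_le_one_of_mem h3 ((hlab _ _ h4).trans hx0)
        omega
      · omega
  exact le_antisymm (key _ _ h.symm) (key _ _ h)

/-- The level of a label. -/
def lv : Lab → ℕ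
  | .X => 0
  | .Y => 0
  | .P n => n
  | .Q n => n

theorem pi_eq_iff {g g' : Lab} : pi g = pi g' ↔ labNorm g = labNorm g' ∧ lv g = lv g' := by
  cases g <;> cases g' <;> simp [pi, labNorm, lv]

theorem exists_succ_lv {g : Lab} {n : ℕ} (h : labNorm g = 1) (hl : lv g = n + 1) :
    ∃ g₁, (a, g₁) ∈ (info a K g).τ ∧ labNorm g₁ = 1 ∧ lv g₁ = n := by
  cases g with
  | X => simp [labNorm] at h
  | Y => simp [labNorm] at h
  | P m =>
    simp only [lv] at hl
    subst hl
    exact ⟨.P n, by simp [info], rfl, rfl⟩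
  | Q m =>
    simp only [lv] at hl
    subst hl
    exact ⟨.Q n, by simp [info], rfl, rfl⟩

theorem lv_of_succ {g g₁ : Lab} {c : A} (h : (c, g₁) ∈ (info a K g).τ) (hg : labNorm g = 1)
    (hg₁ : labNorm g₁ = 1) : lv g = lv g₁ + 1 := by
  cases g with
  | X => simp [labNorm] at hg
  | Y => simp [labNorm] at hg
  | P m =>
    cases m with
    | zero =>
      simp only [info, Set.mem_insert_iff, Set.mem_singleton_iff, Prod.mk.injEq] at h
      rcases h with ⟨_, rfl⟩ | ⟨_, rfl⟩ <;> simp [labNorm] at hg₁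
    | succ m =>
      simp only [info, Set.mem_insert_iff, Set.mem_singleton_iff, Prod.mk.injEq] at h
      rcases h with ⟨_, rfl⟩ | ⟨_, rfl⟩
      · simp [labNorm] at hg₁
      · rfl
  | Q m =>
    cases m with
    | zero =>
      simp only [info, Set.mem_singleton_iff, Prod.mk.injEq] at h
      rcases h with ⟨_, rfl⟩
      simp [labNorm] at hg₁
    | succ m =>
      simp only [info, Set.mem_insert_iff, Set.mem_singleton_iff, Prod.mk.injEq] at h
      rcases h with ⟨_, rfl⟩ | ⟨_, rfl⟩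
      · simp [labNorm] at hg₁
      · rfl

theorem pi_eq_of_info {g g' : Lab} (h : IPiEq (info a K g) (info a K g')) : pi g = pi g' := by
  have hn : labNorm g = labNorm g' := by
    have := h.nrm_eq
    rwa [nrm_info, nrm_info] at this
  refine pi_eq_iff.mpr ⟨hn, ?_⟩
  have hle := labNorm_le g
  by_cases h1 : labNorm g = 1
  · have key : ∀ g g' : Lab, IPiEq (info a K g) (info a K g') → labNorm g = 1 →
        labNorm g' = 1 → lv g ≤ lv g' := by
      intro g g' h h1 h1'
      rcases Nat.eq_zero_or_pos (lv g) with h0 | h0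
      · omega
      · obtain ⟨g₁, h2, h3, h4⟩ := exists_succ_lv (a := a) (K := K) (n := lv g - 1) h1 (by omega)
        obtain ⟨g₂, h5, h6⟩ := h.2.1 _ _ h2
        obtain ⟨h7, h8⟩ := pi_eq_iff.mp h6
        have := lv_of_succ h5 h1' (by omega)
        omega
    exact le_antisymm (key _ _ h h1 (by omega)) (key _ _ h.symm (by omega) h1)
  · have h0 : labNorm g = 0 := by omega
    cases g <;> cases g' <;> simp_all [labNorm, lv]

/-- The refined semantics respects equality up to `pi`. -/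
theorem Sem.piEq {p : Closed A} {ι ι' : Info A} {τ τ' : Set (A × Lab)}
    (h : Sem a K p ι τ) (h' : Sem a K p ι' τ') (hι : IPiEq ι ι') : PiEq τ τ' := by
  have hcomb : ∀ (D : Prop) {τ τ' : Set (A × Lab)} {ι ι' : Info A}, PiEq τ τ' → IPiEq ι ι' →
      IPiEq (comb D τ ι) (comb D τ' ι') := by
    intro D τ τ' ι ι' h hι
    refine ⟨by simp [hι.1], ?_, ?_⟩
    · rintro c g (hg | ⟨hg, hd⟩)
      · obtain ⟨g', h1, h2⟩ := h.1 c g hg
        exact ⟨g', Or.inl h1, h2⟩
      · obtain ⟨g', h1, h2⟩ := hι.2.1 c g hg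
        exact ⟨g', Or.inr ⟨h1, hd⟩, h2⟩
    · rintro c g (hg | ⟨hg, hd⟩)
      · obtain ⟨g', h1, h2⟩ := h.2 c g hg
        exact ⟨g', Or.inl h1, h2⟩
      · obtain ⟨g', h1, h2⟩ := hι.2.2 c g hg
        exact ⟨g', Or.inr ⟨h1, hd⟩, h2⟩
  have hunion : ∀ {τ₁ τ₂ τ₁' τ₂' : Set (A × Lab)}, PiEq τ₁ τ₁' → PiEq τ₂ τ₂' →
      PiEq (τ₁ ∪ τ₂) (τ₁' ∪ τ₂') := by
    intro τ₁ τ₂ τ₁' τ₂' h1 h2
    refine ⟨?_, ?_⟩
    · rintro c g (hg | hg)
      · obtain ⟨g', h3, h4⟩ := h1.1 c g hg
        exact ⟨g', Or.inl h3, h4⟩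
      · obtain ⟨g', h3, h4⟩ := h2.1 c g hg
        exact ⟨g', Or.inr h3, h4⟩
    · rintro c g (hg | hg)
      · obtain ⟨g', h3, h4⟩ := h1.2 c g hg
        exact ⟨g', Or.inl h3, h4⟩
      · obtain ⟨g', h3, h4⟩ := h2.2 c g hg
        exact ⟨g', Or.inr h3, h4⟩
  induction p generalizing ι ι' τ τ' with
  | eps => rw [show τ = ∅ from h, show τ' = ∅ from h']; exact .refl _
  | act b =>
    obtain ⟨g, rfl, rfl⟩ := h
    obtain ⟨g', rfl, rfl⟩ := h'
    have := pi_eq_of_info hι
    refine ⟨?_, ?_⟩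
    · rintro c x hx
      obtain ⟨rfl, rfl⟩ := Prod.mk.inj hx
      exact ⟨g', rfl, this.symm⟩
    · rintro c x hx
      obtain ⟨rfl, rfl⟩ := Prod.mk.inj hx
      exact ⟨g, rfl, this⟩
  | var x => exact x.elim
  | alt p q ihp ihq =>
    obtain ⟨τ₁, τ₂, h1, h2, rfl⟩ := h
    obtain ⟨τ₁', τ₂', h1', h2', rfl⟩ := h'
    exact hunion (ihp h1 h1' hι) (ihq h2 h2' hι)
  | seq p q ihp ihq =>
    obtain ⟨τ₁, τ₂, h1, h2, rfl⟩ := h
    obtain ⟨τ₁', τ₂', h1', h2', rfl⟩ := h'
    have hq := ihq h1 h1' hι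
    have hp := ihp h2 h2' (hcomb _ hq hι)
    refine hunion hp ⟨?_, ?_⟩
    · rintro c g ⟨hg, hd⟩
      obtain ⟨g', h3, h4⟩ := hq.1 c g hg
      exact ⟨g', ⟨h3, hd⟩, h4⟩
    · rintro c g ⟨hg, hd⟩
      obtain ⟨g', h3, h4⟩ := hq.2 c g hg
      exact ⟨g', ⟨h3, hd⟩, h4⟩
  | star p q ihp ihq =>
    obtain ⟨τ₁, τ₂, h1, h2, rfl⟩ := h
    obtain ⟨τ₁', τ₂', h1', h2', rfl⟩ := h'
    have hq := ihq h1 h1' hι
    refine hunion ?_ hq
    by_cases ht : Triv p
    · rw [h2.eq_empty_of_triv ht, h2'.eq_empty_of_triv ht]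
      exact .refl _
    · unfold Triv at ht
      push Not at ht
      obtain ⟨c, p', hs⟩ := ht
      have e1 := h2.star_info (fun x hx => Or.inl hx) hs
      have e2 := h2'.star_info (fun x hx => Or.inl hx) hs
      rw [e1] at h2
      rw [e2] at h2'
      rw [h2.unique h2']
      exact .refl _

theorem IPiEq.comb {D : Prop} {τ τ' : Set (A × Lab)} {ι ι' : Info A} (h : PiEq τ τ')
    (hι : IPiEq ι ι') : IPiEq (comb D τ ι) (comb D τ' ι') := by
  refine ⟨by simp [hι.1], ?_, ?_⟩
  · rintro c g (hg | ⟨hg, hd⟩)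
    · obtain ⟨g', h1, h2⟩ := h.1 c g hg
      exact ⟨g', Or.inl h1, h2⟩
    · obtain ⟨g', h1, h2⟩ := hι.2.1 c g hg
      exact ⟨g', Or.inr ⟨h1, hd⟩, h2⟩
  · rintro c g (hg | ⟨hg, hd⟩)
    · obtain ⟨g', h1, h2⟩ := h.2 c g hg
      exact ⟨g', Or.inl h1, h2⟩
    · obtain ⟨g', h1, h2⟩ := hι.2.2 c g hg
      exact ⟨g', Or.inr ⟨h1, hd⟩, h2⟩

/-- Bisimilar closed terms produce the same labels up to `pi`. -/
theorem piEq_of_bisim {p q : Closed A} {ι : Info A} {τ τ' : Set (A × Lab)} (hpq : Bisim p q)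
    (h : Sem a K p ι τ) (h' : Sem a K q ι τ') : PiEq τ τ' := by
  -- comparison of levels
  have key : ∀ (n : ℕ) (p q : Closed A) (τ τ' : Set (A × Lab)) (g g' : Lab), Bisim p q →
      Sem a K p ι τ → comb (Down p) τ ι = info a K g →
      Sem a K q ι τ' → comb (Down q) τ' ι = info a K g' →
      labNorm g = 1 → labNorm g' = 1 → lv g = n → lv g' ≤ n := by
    intro n
    induction n with
    | zero =>
      intro p q τ τ' g g' hpq h1 h2 h3 h4 hg hg' hl
      by_contra hcon
      obtain ⟨g₁, h5, h6, h7⟩ := exists_succ_lv (a := a) (K := K) (n := lv g' - 1) hg' (by omega)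
      rw [← h4] at h5
      rcases mem_comb_τ.mp h5 with h5 | ⟨h5, hd⟩
      · obtain ⟨q', τ₁, hs, h8, h9⟩ := h3.bwd h5
        obtain ⟨p', hs', hb⟩ := hpq.symm.move hs
        obtain ⟨τ₂, g₂, h10, h11, h12⟩ := h1.fwd hs'
        have e1 := h8.norm_add h9
        have e2 := h10.norm_add h11
        have e3 := hb.norm_eq
        have : (a, g₂) ∈ (info a K g).τ := by rw [← h2]; exact Or.inl h12
        have := lv_of_succ this hg (by omega)
        omega
      · have : (a, g₁) ∈ (info a K g).τ := by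
          rw [← h2]; exact Or.inr ⟨h5, hpq.symm.down hd⟩
        have := lv_of_succ this hg h6
        omega
    | succ n ih =>
      intro p q τ τ' g g' hpq h1 h2 h3 h4 hg hg' hl
      obtain ⟨g₁, h5, h6, h7⟩ := exists_succ_lv (a := a) (K := K) (n := n) hg (by omega)
      rw [← h2] at h5
      rcases mem_comb_τ.mp h5 with h5 | ⟨h5, hd⟩
      · obtain ⟨p', τ₁, hs, h8, h9⟩ := h1.bwd h5
        obtain ⟨q', hs', hb⟩ := hpq.move hs
        obtain ⟨τ₂, g₂, h10, h11, h12⟩ := h3.fwd hs'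
        have e1 := h8.norm_add h9
        have e2 := h10.norm_add h11
        have e3 := hb.norm_eq
        have e4 := ih _ _ _ _ _ _ hb h8 h9 h10 h11 h6 (by omega) h7
        have : (a, g₂) ∈ (info a K g').τ := by rw [← h4]; exact Or.inl h12
        have := lv_of_succ this hg' (by omega)
        omega
      · have : (a, g₁) ∈ (info a K g').τ := by
          rw [← h4]; exact Or.inr ⟨h5, hpq.down hd⟩
        have := lv_of_succ this hg' h6
        omega
  have key2 : ∀ (p q : Closed A) (τ τ' : Set (A × Lab)) (g g' : Lab), Bisim p q →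
      Sem a K p ι τ → comb (Down p) τ ι = info a K g →
      Sem a K q ι τ' → comb (Down q) τ' ι = info a K g' → pi g = pi g' := by
    intro p q τ τ' g g' hpq h1 h2 h3 h4
    have e1 := h1.norm_add h2
    have e2 := h3.norm_add h4
    have e3 := hpq.norm_eq
    have hle := labNorm_le g
    have hn : labNorm g = labNorm g' := by omega
    refine pi_eq_iff.mpr ⟨hn, ?_⟩
    by_cases hg : labNorm g = 1
    · exact le_antisymm (key _ _ _ _ _ _ _ hpq.symm h3 h4 h1 h2 (by omega) hg rfl)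
        (key _ _ _ _ _ _ _ hpq h1 h2 h3 h4 hg (by omega) rfl)
    · have h0 : labNorm g = 0 := by omega
      cases g <;> cases g' <;> simp_all [labNorm, lv]
  refine ⟨fun c g hg => ?_, fun c g hg => ?_⟩
  · obtain ⟨p', τ₁, hs, h8, h9⟩ := h.bwd hg
    obtain ⟨q', hs', hb⟩ := hpq.move hs
    obtain ⟨τ₂, g₂, h10, h11, h12⟩ := h'.fwd hs'
    exact ⟨g₂, h12, (key2 _ _ _ _ _ _ hb h8 h9 h10 h11).symm⟩
  · obtain ⟨p', τ₁, hs, h8, h9⟩ := h'.bwd hg
    obtain ⟨q', hs', hb⟩ := hpq.symm.move hs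
    obtain ⟨τ₂, g₂, h10, h11, h12⟩ := h.fwd hs'
    exact ⟨g₂, h12, (key2 _ _ _ _ _ _ hb h8 h9 h10 h11).symm⟩

end Pool.Agent.Lib.MP_32323c_lc
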